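import Pool.Agent.H333R2.Col.Notions

/-!
# Tuples, combinations, closure (helper423)
-/

namespace Pool.Agent.H333R2.Col

open Pool.Agent.H622R2

theorem mem_cube {k : ℕ} {c : List Bool} : c ∈ cube k ↔ c.length = k := by
  induction k generalizing c with
  | zero => simp [cube, List.length_eq_zero_iff]
  | succ k ih =>
    simp only [cube, List.mem_flatMap, List.mem_cons, List.not_mem_nil, or_false]
    constructor
    · rintro ⟨d, hd, rfl | rfl⟩ <;> simp [ih.mp hd]
    · intro h
      match c, h with
      | b :: d, h =>
        refine ⟨d, ih.mpr (by simpa using h), ?_⟩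
        cases b <;> simp

theorem length_cube (k : ℕ) : (cube k).length = 2 ^ k := by
  induction k with
  | zero => simp [cube]
  | succ k ih =>
    simp only [cube, List.length_flatMap, List.length_cons, List.length_nil]
    rw [List.map_const', List.sum_replicate, ih, pow_succ]
    simp

theorem mem_tuples {V : List ℕ} {k : ℕ} {l : List ℕ} :
    l ∈ tuples V k ↔ l.length = k ∧ ∀ x ∈ l, x ∈ V := by
  induction k generalizing l with
  | zero =>
    simp only [tuples, List.mem_singleton, List.length_eq_zero_iff]
    constructor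
    · rintro rfl; simp
    · exact fun h => h.1
  | succ k ih =>
    simp only [tuples, List.mem_flatMap, List.mem_map]
    constructor
    · rintro ⟨v, hv, l', hl', rfl⟩
      obtain ⟨h1, h2⟩ := ih.mp hl'
      refine ⟨by simp [h1], ?_⟩
      intro x hx
      rcases List.mem_cons.mp hx with rfl | hx
      · exact hv
      · exact h2 x hx
    · rintro ⟨h1, h2⟩
      match l, h1, h2 with
      | v :: l', h1, h2 =>
        exact ⟨v, h2 v (by simp), l', ih.mpr ⟨by simpa using h1,
          fun x hx => h2 x (List.mem_cons_of_mem _ hx)⟩, rfl⟩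

/-- a non-empty set with at most `t` elements is the set of entries of a tuple -/
theorem exists_tuple {V : List ℕ} {S : Finset ℕ} (hS : S.Nonempty) (h : ∀ x ∈ S, x ∈ V) {t : ℕ}
    (ht : S.card ≤ t) : ∃ l ∈ tuples V t, ∀ x, x ∈ l ↔ x ∈ S := by
  obtain ⟨a, ha⟩ := hS
  refine ⟨S.toList ++ List.replicate (t - S.card) a, mem_tuples.mpr ⟨?_, ?_⟩, ?_⟩
  · simp; omega
  · intro x hx
    simp only [List.mem_append, Finset.mem_toList, List.mem_replicate] at hx
    rcases hx with hx | hx
    · exact h x hx
    · rw [hx.2]; exact h a ha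
  · intro x
    simp only [List.mem_append, Finset.mem_toList, List.mem_replicate]
    constructor
    · rintro (hx | hx)
      · exact hx
      · rw [hx.2]; exact ha
    · exact Or.inl

theorem bz_injective : Function.Injective bz := by
  intro a b
  cases a <;> cases b <;> simp [bz]

theorem bz_parity (m : ℕ) : bz (decide (m % 2 = 1)) = (m : ZMod 2) := by
  rw [← ZMod.natCast_mod m 2]
  rcases Nat.mod_two_eq_zero_or_one m with hm | hm <;> simp [hm, bz]

theorem comb_cons (adj : ℕ → ℕ → Bool) (b : Bool) (c : List Bool) (r : ℕ) (R : List ℕ) (w : ℕ) :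
    bz (comb adj (b :: c) (r :: R) w) = bz b * bz (adj r w) + bz (comb adj c R w) := by
  unfold comb
  rw [bz_parity, bz_parity, List.zip_cons_cons, List.filter_cons]
  cases b <;> cases h : adj r w <;> simp [bz, h, add_comm]

/-- `comb` is a linear combination of rows -/
theorem comb_eq_sum (adj : ℕ → ℕ → Bool) {k : ℕ} (c : Fin k → Bool) (R : Fin k → ℕ) (w : ℕ) :
    bz (comb adj (List.ofFn c) (List.ofFn R) w) = ∑ i, bz (c i) * bz (adj (R i) w) := by
  induction k with
  | zero => simp [comb, bz]
  | succ k ih =>
    rw [List.ofFn_succ, List.ofFn_succ, comb_cons, ih, Fin.sum_univ_succ]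

theorem iter_fix {n : ℕ} (f : Finset ℕ → Finset ℕ)
    (h : ∀ S ⊆ Finset.range n, S ⊆ f S ∧ f S ⊆ Finset.range n) (S0 : Finset ℕ)
    (h0 : S0 ⊆ Finset.range n) : f (f^[n] S0) = f^[n] S0 := by
  have hsub : ∀ i, f^[i] S0 ⊆ Finset.range n := by
    intro i
    induction i with
    | zero => exact h0
    | succ i ih => rw [Function.iterate_succ_apply']; exact (h _ ih).2
  by_contra hne
  have hne' : ∀ i ≤ n, f (f^[i] S0) ≠ f^[i] S0 := by
    intro i hi heq
    apply hne
    have h1 : ∀ j, f^[j + i] S0 = f^[i] S0 := by
      intro j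
      induction j with
      | zero => rw [Nat.zero_add]
      | succ j ih => rw [show j + 1 + i = (j + i) + 1 by omega, Function.iterate_succ_apply',
          ih, heq]
    have h2 := h1 (n - i)
    rw [Nat.sub_add_cancel hi] at h2
    rw [h2, heq]
  have hcard : ∀ i ≤ n + 1, i ≤ (f^[i] S0).card := by
    intro i
    induction i with
    | zero => intro _; exact Nat.zero_le _
    | succ i ih =>
      intro hi
      have h1 := ih (by omega)
      have h2 : f^[i] S0 ⊂ f^[i + 1] S0 := by
        rw [Function.iterate_succ_apply']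
        exact (h _ (hsub i)).1.ssubset_of_ne (hne' i (by omega)).symm
      have := Finset.card_lt_card h2
      omega
  have h1 := hcard (n + 1) le_rfl
  have h2 := Finset.card_le_card (hsub (n + 1))
  rw [Finset.card_range] at h2
  omega

theorem mem_closStep {adj : ℕ → ℕ → Bool} {n k : ℕ} {A D Z : List ℕ} {w : ℕ} :
    w ∈ closStep adj n k A D Z ↔ w < n ∧ (w ∈ Z ∨ ∃ v ∈ Z, forces adj k A D v w = true) := by
  simp [closStep]

/-- the closure is closed -/
theorem clos_closed {adj : ℕ → ℕ → Bool} {n k : ℕ} {A D X : List ℕ} (hX : ∀ x ∈ X, x < n) {v w : ℕ}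
    (hv : v ∈ clos adj n k A D X) (hw : w < n) (h : forces adj k A D v w = true) :
    w ∈ clos adj n k A D X := by
  let f : Finset ℕ → Finset ℕ := fun S =>
    (Finset.range n).filter fun w => w ∈ S ∨ ∃ v ∈ S, forces adj k A D v w = true
  have hf : ∀ S ⊆ Finset.range n, S ⊆ f S ∧ f S ⊆ Finset.range n := by
    intro S hS
    refine ⟨fun x hx => ?_, Finset.filter_subset _ _⟩
    exact Finset.mem_filter.mpr ⟨hS hx, Or.inl hx⟩
  have hstep : ∀ Z : List ℕ, (closStep adj n k A D Z).toFinset = f Z.toFinset := by
    intro Z
    ext w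
    rw [List.mem_toFinset, mem_closStep]
    simp [f]
  have hiter : ∀ i, ((closStep adj n k A D)^[i] X).toFinset = f^[i] X.toFinset := by
    intro i
    induction i with
    | zero => rfl
    | succ i ih => rw [Function.iterate_succ_apply', Function.iterate_succ_apply', hstep, ih]
  have hfix := iter_fix f hf X.toFinset (by
    intro x hx; exact Finset.mem_range.mpr (hX x (List.mem_toFinset.mp hx)))
  rw [← hiter n] at hfix
  have h1 : w ∈ f ((closStep adj n k A D)^[n] X).toFinset := by
    refine Finset.mem_filter.mpr ⟨Finset.mem_range.mpr hw, Or.inr ⟨v, ?_, h⟩⟩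
    rw [List.mem_toFinset]
    exact hv
  rw [hfix, List.mem_toFinset] at h1
  exact h1

theorem coef_spec {adj : ℕ → ℕ → Bool} {k : ℕ} {A D : List ℕ} {v : ℕ} {c0 : List Bool}
    (hc0 : c0 ∈ cube k) (h0 : ∀ d ∈ D, adj v d = comb adj c0 A d) :
    coef adj k A D v ∈ cube k ∧ ∀ d ∈ D, adj v d = comb adj (coef adj k A D v) A d := by
  unfold coef
  set L := (cube k).filter (fun c => D.all fun d => !(adj v d ^^ comb adj c A d)) with hL
  have hmem : c0 ∈ L := by
    rw [hL, List.mem_filter]
    refine ⟨hc0, ?_⟩
    rw [List.all_eq_true]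
    intro d hd
    rw [h0 d hd]
    simp
  match hLe : L with
  | [] => simp at hmem
  | c :: L' =>
    have hc : c ∈ c :: L' := by simp
    rw [hL, List.mem_filter, List.all_eq_true] at hc
    simp only [List.head?_cons, Option.getD_some]
    refine ⟨hc.1, fun d hd => ?_⟩
    have := hc.2 d hd
    revert this
    cases adj v d <;> cases comb adj c A d <;> simp

/-- the hidden set `Z` with `k` types can be recovered by a closure -/
theorem clos_spec {adj : ℕ → ℕ → Bool} {n k : ℕ} (hn : 0 < n) (Z : Set ℕ) (hZ : ∀ v ∈ Z, v < n)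
    (τ : ℕ → Fin k) (hτ : ∀ u ∈ Z, ∀ v ∈ Z, τ u = τ v → ∀ w < n, w ∉ Z → adj u w = adj v w) :
    ∃ A ∈ tuples (List.range n) k, ∃ D ∈ tuples (List.range n) (4 ^ k),
      ∀ X : List ℕ, (∀ x ∈ X, x ∈ Z) →
        (∀ x ∈ X, x ∈ clos adj n k A D X) ∧ (∀ v ∈ clos adj n k A D X, v ∈ Z) ∧
        ∀ v ∈ clos adj n k A D X, ∃ c ∈ cube k, ∀ w < n, w ∉ clos adj n k A D X →
          adj v w = comb adj c A w := by
  classical
  -- representatives of the types
  let rep : Fin k → ℕ := fun i => if h : ∃ v ∈ Z, τ v = i then h.choose else 0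
  have hrep : ∀ v ∈ Z, rep (τ v) ∈ Z ∧ τ (rep (τ v)) = τ v := by
    intro v hv
    have h : ∃ u ∈ Z, τ u = τ v := ⟨v, hv, rfl⟩
    have : rep (τ v) = h.choose := by simp only [rep]; rw [dif_pos h]
    rw [this]
    exact ⟨h.choose_spec.1, h.choose_spec.2⟩
  have hrepn : ∀ i, rep i < n := by
    intro i
    by_cases h : ∃ v ∈ Z, τ v = i
    · have : rep i = h.choose := by simp only [rep]; rw [dif_pos h]
      rw [this]
      exact hZ _ h.choose_spec.1
    · have : rep i = 0 := by simp only [rep]; rw [dif_neg h]
      rw [this]; exact hn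
  set A : List ℕ := List.ofFn rep with hA
  have hAt : A ∈ tuples (List.range n) k := by
    rw [mem_tuples]
    refine ⟨by simp [hA], ?_⟩
    intro x hx
    rw [hA, List.mem_ofFn] at hx
    obtain ⟨i, rfl⟩ := hx
    exact List.mem_range.mpr (hrepn i)
  let cv : ℕ → List Bool := fun v => List.ofFn (fun i : Fin k => decide (i = τ v))
  have hcv : ∀ v, cv v ∈ cube k := fun v => mem_cube.mpr (by simp [cv])
  have hcomb : ∀ v ∈ Z, ∀ w < n, w ∉ Z → comb adj (cv v) A w = adj v w := by
    intro v hv w hw hwZ
    apply bz_injective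
    rw [hA, comb_eq_sum]
    rw [Finset.sum_eq_single (τ v)]
    · have := hτ _ (hrep v hv).1 v hv (hrep v hv).2 w hw hwZ
      simp [bz, this]
    · intro i _ hi
      simp [bz, hi]
    · simp
  -- the columns
  obtain ⟨D, hD, hDsep⟩ : ∃ D ∈ tuples (List.range n) (4 ^ k), (∀ w < n, w ∉ Z →
      (∀ d ∈ D, d ∉ Z) ∧
      ∀ c ∈ cube k, ∀ c' ∈ cube k, comb adj c A w ≠ comb adj c' A w →
        ∃ d ∈ D, comb adj c A d ≠ comb adj c' A d) := by
    by_cases hd : ∃ d0 < n, d0 ∉ Z
    · obtain ⟨d0, hd0, hd0Z⟩ := hd
      let col : List Bool → List Bool → ℕ := fun c c' =>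
        if h : ∃ w < n, w ∉ Z ∧ comb adj c A w ≠ comb adj c' A w then h.choose else d0
      have hcol : ∀ c c', col c c' < n ∧ col c c' ∉ Z := by
        intro c c'
        by_cases h : ∃ w < n, w ∉ Z ∧ comb adj c A w ≠ comb adj c' A w
        · have : col c c' = h.choose := by simp only [col]; rw [dif_pos h]
          rw [this]
          exact ⟨h.choose_spec.1, h.choose_spec.2.1⟩
        · have : col c c' = d0 := by simp only [col]; rw [dif_neg h]
          rw [this]; exact ⟨hd0, hd0Z⟩
      refine ⟨(cube k).flatMap fun c => (cube k).map fun c' => col c c', ?_, ?_⟩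
      · rw [mem_tuples]
        constructor
        · simp only [List.length_flatMap, List.length_map, length_cube]
          rw [List.map_const', List.sum_replicate, length_cube, smul_eq_mul, ← mul_pow]
          norm_num
        · intro x hx
          simp only [List.mem_flatMap, List.mem_map] at hx
          obtain ⟨c, _, c', _, rfl⟩ := hx
          exact List.mem_range.mpr (hcol c c').1
      · intro w hw hwZ
        constructor
        · intro x hx
          simp only [List.mem_flatMap, List.mem_map] at hx
          obtain ⟨c, _, c', _, rfl⟩ := hx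
          exact (hcol c c').2
        · intro c hc c' hc' hne
          refine ⟨col c c', ?_, ?_⟩
          · simp only [List.mem_flatMap, List.mem_map]
            exact ⟨c, hc, c', hc', rfl⟩
          · have h : ∃ w < n, w ∉ Z ∧ comb adj c A w ≠ comb adj c' A w := ⟨w, hw, hwZ, hne⟩
            have : col c c' = h.choose := by simp only [col]; rw [dif_pos h]
            rw [this]
            exact h.choose_spec.2.2
    · refine ⟨List.replicate (4 ^ k) 0, ?_, ?_⟩
      · rw [mem_tuples]
        refine ⟨by simp, ?_⟩
        intro x hx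
        rw [List.eq_of_mem_replicate hx]
        exact List.mem_range.mpr hn
      · intro w hw hwZ
        exact absurd ⟨w, hw, hwZ⟩ hd
  refine ⟨A, hAt, D, hD, ?_⟩
  have hDn : ∀ d ∈ D, d < n := fun d hd => List.mem_range.mp ((mem_tuples.mp hD).2 d hd)
  -- no forcing out of Z
  have hforce : ∀ v ∈ Z, ∀ w < n, w ∉ Z → forces adj k A D v w = false := by
    intro v hv w hw hwZ
    have h1 := coef_spec (adj := adj) (k := k) (A := A) (D := D) (v := v) (hcv v)
      (fun d hd => (hcomb v hv d (hDn d hd) ((hDsep w hw hwZ).1 d hd)).symm)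
    have h2 : comb adj (coef adj k A D v) A w = comb adj (cv v) A w := by
      by_contra hne
      obtain ⟨d, hd, hdne⟩ := (hDsep w hw hwZ).2 _ h1.1 _ (hcv v) hne
      apply hdne
      rw [← h1.2 d hd, hcomb v hv d (hDn d hd) ((hDsep w hw hwZ).1 d hd)]
    unfold forces
    rw [h2, hcomb v hv w hw hwZ]
    simp
  intro X hXZ
  have hXn : ∀ x ∈ X, x < n := fun x hx => hZ x (hXZ x hx)
  refine ⟨?_, ?_, ?_⟩
  · intro x hx
    have : ∀ i, x ∈ (closStep adj n k A D)^[i] X := by
      intro i
      induction i with
      | zero => exact hx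
      | succ i ih =>
        rw [Function.iterate_succ_apply', mem_closStep]
        exact ⟨hXn x hx, Or.inl ih⟩
    exact this n
  · have : ∀ i, ∀ v ∈ (closStep adj n k A D)^[i] X, v ∈ Z := by
      intro i
      induction i with
      | zero => exact hXZ
      | succ i ih =>
        intro w hw
        rw [Function.iterate_succ_apply', mem_closStep] at hw
        obtain ⟨hwn, hw | ⟨v, hv, hvw⟩⟩ := hw
        · exact ih w hw
        · by_contra hwZ
          rw [hforce v (ih v hv) w hwn hwZ] at hvw
          exact absurd hvw (by simp)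
    exact this n
  · intro v hv
    have hcl : ∀ w < n, w ∉ clos adj n k A D X → adj v w = comb adj (coef adj k A D v) A w := by
      intro w hw hwc
      have : forces adj k A D v w = false := by
        by_contra hne
        exact hwc (clos_closed hXn hv hw (by simpa using hne))
      unfold forces at this
      revert this
      cases adj v w <;> cases comb adj (coef adj k A D v) A w <;> simp
    by_cases hc : coef adj k A D v ∈ cube k
    · exact ⟨_, hc, hcl⟩
    · have h0 : coef adj k A D v = [] := by
        unfold coef at hc ⊢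
        match hL : (cube k).filter (fun c => D.all fun d => !(adj v d ^^ comb adj c A d)) with
        | [] => simp
        | c :: L' =>
          exfalso
          apply hc
          rw [hL]
          have : c ∈ (cube k).filter (fun c => D.all fun d => !(adj v d ^^ comb adj c A d)) := by
            rw [hL]; simp
          simpa using (List.mem_filter.mp this).1
      refine ⟨List.replicate k false, mem_cube.mpr (by simp), fun w hw hwc => ?_⟩
      rw [hcl w hw hwc, h0]
      unfold comb
      have : ((List.replicate k false).zip A).filter (fun p => p.1 && adj p.2 w) = [] := by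
        rw [List.filter_eq_nil_iff]
        rintro ⟨b, r⟩ hp
        have := (List.of_mem_zip hp).1
        have hb := List.eq_of_mem_replicate this
        simp [hb]
      rw [this]
      simp

end Pool.Agent.H333R2.Col
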