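import Pool.Agent.H333R2.Col.Notions

/-!
# Module LA: ranks of submatrices over `ZMod 2` (monotonicity, submodularity, splitting)
-/

namespace Pool.Agent.H333R2.Col

section LA

variable {V : Type} [Fintype V] [DecidableEq V] {M : Matrix V V (ZMod 2)}

/-- a row restricted to the columns in `C` -/
def laRow (M : Matrix V V (ZMod 2)) (C : Finset V) (v : V) : V → ZMod 2 :=
  fun w => if w ∈ C then M v w else 0

/-- the span of the rows in `A` restricted to the columns in `C` -/
def laSpan (M : Matrix V V (ZMod 2)) (A C : Finset V) : Submodule (ZMod 2) (V → ZMod 2) :=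
  Submodule.span (ZMod 2) (laRow M C '' (A : Set V))

theorem rk_eq_finrank (M : Matrix V V (ZMod 2)) (A C : Finset V) :
    rk M A C = Module.finrank (ZMod 2) (laSpan M A C) := by
  unfold rk
  rw [Matrix.rank_eq_finrank_span_row]
  have : Submodule.span (ZMod 2) (Set.range (Matrix.of (fun i j => if i ∈ A ∧ j ∈ C then M i j
      else 0) : Matrix V V (ZMod 2)).row) = laSpan M A C := by
    apply le_antisymm
    · rw [Submodule.span_le]
      rintro _ ⟨v, rfl⟩
      by_cases hv : v ∈ A
      · apply Submodule.subset_span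
        refine ⟨v, hv, ?_⟩
        funext w
        simp [laRow, Matrix.row, hv]
      · have : (Matrix.of (fun i j => if i ∈ A ∧ j ∈ C then M i j
            else 0) : Matrix V V (ZMod 2)).row v = 0 := by
          funext w
          simp [Matrix.row, hv]
        rw [this]
        exact Submodule.zero_mem _
    · unfold laSpan
      rw [Submodule.span_le]
      rintro _ ⟨v, hv, rfl⟩
      apply Submodule.subset_span
      refine ⟨v, ?_⟩
      funext w
      have hv' : v ∈ A := hv
      simp [laRow, Matrix.row, hv']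
  rw [this]

theorem laSpan_mono {A A' C : Finset V} (h : A ⊆ A') : laSpan M A C ≤ laSpan M A' C :=
  Submodule.span_mono (Set.image_mono (by exact_mod_cast h))

theorem laSpan_union (A A' C : Finset V) :
    laSpan M (A ∪ A') C = laSpan M A C ⊔ laSpan M A' C := by
  unfold laSpan
  rw [Finset.coe_union, Set.image_union, Submodule.span_union]

theorem rk_mono_rows {A A' C : Finset V} (h : A ⊆ A') : rk M A C ≤ rk M A' C := by
  rw [rk_eq_finrank, rk_eq_finrank]
  exact Submodule.finrank_mono (laSpan_mono h)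

theorem rk_le_card (A C : Finset V) : rk M A C ≤ A.card := by
  rw [rk_eq_finrank]
  unfold laSpan
  have h := finrank_span_finset_le_card (R := ZMod 2) (A.image (laRow M C))
  rw [Finset.coe_image] at h
  exact h.trans Finset.card_image_le

theorem rk_rows_submod (A A' C : Finset V) :
    rk M (A ∪ A') C + rk M (A ∩ A') C ≤ rk M A C + rk M A' C := by
  simp only [rk_eq_finrank]
  rw [← Submodule.finrank_sup_add_finrank_inf_eq (laSpan M A C) (laSpan M A' C), laSpan_union]
  refine Nat.add_le_add_left ?_ _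
  exact Submodule.finrank_mono (le_inf (laSpan_mono Finset.inter_subset_left)
    (laSpan_mono Finset.inter_subset_right))

theorem rk_symm (hM : M.transpose = M) (A C : Finset V) : rk M A C = rk M C A := by
  unfold rk
  rw [← Matrix.rank_transpose]
  congr 1
  ext i j
  have : M j i = M i j := by
    conv_rhs => rw [← hM]
    rfl
  simp [and_comm, this]

/-- restriction to columns `C0 ⊆ C` -/
def laRes (C0 : Finset V) : (V → ZMod 2) →ₗ[ZMod 2] (V → ZMod 2) where
  toFun f := fun w => if w ∈ C0 then f w else 0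
  map_add' f g := by
    funext w
    by_cases h : w ∈ C0 <;> simp [h]
  map_smul' c f := by
    funext w
    by_cases h : w ∈ C0 <;> simp [h]

theorem laSpan_map {A C0 C : Finset V} (h : C0 ⊆ C) :
    (laSpan M A C).map (laRes C0) = laSpan M A C0 := by
  unfold laSpan
  rw [Submodule.map_span, ← Set.image_comp]
  congr 1
  apply Set.image_congr
  intro v _
  funext w
  by_cases hw : w ∈ C0
  · simp [laRes, laRow, hw, h hw]
  · simp [laRes, laRow, hw]

theorem finrank_map_add_inf_ker (p : (V → ZMod 2) →ₗ[ZMod 2] (V → ZMod 2))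
    (S : Submodule (ZMod 2) (V → ZMod 2)) :
    Module.finrank (ZMod 2) (S.map p) + Module.finrank (ZMod 2) (S ⊓ LinearMap.ker p : Submodule _ _)
      = Module.finrank (ZMod 2) S := by
  have h := (p.domRestrict S).finrank_range_add_finrank_ker
  rw [LinearMap.range_domRestrict] at h
  rw [← h]
  congr 1
  have h2 : (LinearMap.ker (p.domRestrict S)).map S.subtype = S ⊓ LinearMap.ker p := by
    ext x
    simp only [Submodule.mem_map, LinearMap.mem_ker, Submodule.mem_inf]
    constructor
    · rintro ⟨y, hy, rfl⟩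
      exact ⟨y.2, hy⟩
    · rintro ⟨hx, hp⟩
      exact ⟨⟨x, hx⟩, hp, rfl⟩
  rw [← h2]
  exact Submodule.finrank_map_subtype_eq S _

theorem rk_exchange {A0 A C0 C : Finset V} (hA : A0 ⊆ A) (hC : C0 ⊆ C) :
    rk M A C0 + rk M A0 C ≤ rk M A C + rk M A0 C0 := by
  simp only [rk_eq_finrank]
  have h1 := finrank_map_add_inf_ker (laRes C0) (laSpan M A C)
  have h2 := finrank_map_add_inf_ker (laRes C0) (laSpan M A0 C)
  rw [laSpan_map hC] at h1 h2
  have h3 : Module.finrank (ZMod 2) (laSpan M A0 C ⊓ LinearMap.ker (laRes C0) : Submodule _ _) ≤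
      Module.finrank (ZMod 2) (laSpan M A C ⊓ LinearMap.ker (laRes C0) : Submodule _ _) :=
    Submodule.finrank_mono (inf_le_inf_right _ (laSpan_mono hA))
  omega

theorem rk_mono_cols {A C0 C : Finset V} (h : C0 ⊆ C) : rk M A C0 ≤ rk M A C := by
  simp only [rk_eq_finrank]
  rw [← laSpan_map h]
  exact Submodule.finrank_map_le _ _

theorem rk_cols_submod (hM : M.transpose = M) (A C C' : Finset V) :
    rk M A (C ∪ C') + rk M A (C ∩ C') ≤ rk M A C + rk M A C' := by
  rw [rk_symm hM A, rk_symm hM A, rk_symm hM A, rk_symm hM A]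
  exact rk_rows_submod C C' A

theorem rk_submod (hM : M.transpose = M) (A A' C C' : Finset V) :
    rk M (A ∪ A') (C ∩ C') + rk M (A ∩ A') (C ∪ C') ≤ rk M A C + rk M A' C' := by
  have h1 := rk_rows_submod (M := M) A A' (C ∩ C')
  have h2 := rk_cols_submod hM (A ∩ A') C C'
  have h3 := rk_exchange (M := M) (A0 := A ∩ A') (A := A) (C0 := C ∩ C') (C := C)
    Finset.inter_subset_left Finset.inter_subset_left
  have h4 := rk_exchange (M := M) (A0 := A ∩ A') (A := A') (C0 := C ∩ C') (C := C')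
    Finset.inter_subset_right Finset.inter_subset_right
  omega

/-- spanned by `t` rows => rank at most `t` -/
theorem rk_le_of_rows {A C : Finset V} {t : ℕ} (R : Fin t → V)
    (h : ∀ v ∈ A, ∃ c : Fin t → ZMod 2, ∀ w ∈ C, M v w = ∑ i, c i * M (R i) w) :
    rk M A C ≤ t := by
  rw [rk_eq_finrank]
  have h1 : laSpan M A C ≤ Submodule.span (ZMod 2) (Set.range (fun i => laRow M C (R i))) := by
    unfold laSpan
    rw [Submodule.span_le]
    rintro _ ⟨v, hv, rfl⟩
    obtain ⟨c, hc⟩ := h v hv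
    apply (Submodule.mem_span_range_iff_exists_fun (ZMod 2)).2
    refine ⟨c, ?_⟩
    funext w
    by_cases hw : w ∈ C
    · simp [laRow, hw, hc w hw, Finset.sum_apply]
    · simp [laRow, hw, Finset.sum_apply]
  refine (Submodule.finrank_mono h1).trans ?_
  have h2 := finrank_range_le_card (R := ZMod 2) (fun i => laRow M C (R i))
  rw [Fintype.card_fin] at h2
  exact h2

theorem la_basis_aux (A C : Finset V) :
    ∃ X ⊆ A, X.card = rk M A C ∧ laSpan M X C = laSpan M A C := by
  induction A using Finset.induction_on with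
  | empty =>
    refine ⟨∅, Finset.Subset.refl _, ?_, rfl⟩
    have := rk_le_card (M := M) ∅ C
    simp only [Finset.card_empty] at this ⊢
    omega
  | insert v A hv ih =>
    obtain ⟨X, hXA, hXc, hXs⟩ := ih
    by_cases h : rk M (insert v A) C = rk M A C
    · refine ⟨X, hXA.trans (Finset.subset_insert _ _), by rw [h, hXc], ?_⟩
      rw [hXs]
      apply Submodule.eq_of_le_of_finrank_eq (laSpan_mono (Finset.subset_insert _ _))
      rw [← rk_eq_finrank, ← rk_eq_finrank, h]
    · have hs : laSpan M (insert v X) C = laSpan M (insert v A) C := by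
        rw [Finset.insert_eq, Finset.insert_eq, laSpan_union, laSpan_union, hXs]
      refine ⟨insert v X, Finset.insert_subset_insert _ hXA, ?_, hs⟩
      have h1 : rk M (insert v A) C ≤ rk M A C + 1 := by
        have h2 := rk_rows_submod (M := M) {v} A C
        have h3 := rk_le_card (M := M) {v} C
        rw [← Finset.insert_eq] at h2
        simp only [Finset.card_singleton] at h3
        omega
      have h4 : rk M A C ≤ rk M (insert v A) C := rk_mono_rows (Finset.subset_insert _ _)
      have h5 : rk M (insert v A) C ≤ (insert v X).card := by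
        rw [rk_eq_finrank, ← hs, ← rk_eq_finrank]
        exact rk_le_card _ _
      have h6 := Finset.card_insert_le v X
      omega

/-- independent rows of a set of maximal rank -/
theorem la_basis {A C : Finset V} {t : ℕ} (h : rk M A C = t) :
    ∃ X ⊆ A, X.card = t ∧ rk M X C = t := by
  obtain ⟨X, h1, h2, h3⟩ := la_basis_aux (M := M) A C
  refine ⟨X, h1, h2.trans h, ?_⟩
  rw [rk_eq_finrank, h3, ← rk_eq_finrank, h]

/-- rank at most `t` => spanned by `t` rows -/
theorem exists_rows [Nonempty V] {A C : Finset V} {t : ℕ} (h : rk M A C ≤ t) :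
    ∃ R : Fin t → V, ∀ v ∈ A, ∃ c : Fin t → ZMod 2, ∀ w ∈ C, M v w = ∑ i, c i * M (R i) w := by
  obtain ⟨X, h1, h2, h3⟩ := la_basis_aux (M := M) A C
  have hXt : X.card ≤ t := h2.trans_le h
  let R : Fin t → V := fun i => if hi : (i : ℕ) < X.card then (X.equivFin.symm ⟨i, hi⟩ : X) else
    Classical.arbitrary V
  have hR : ∀ x ∈ X, ∃ i, R i = x := by
    intro x hx
    refine ⟨⟨X.equivFin ⟨x, hx⟩, lt_of_lt_of_le (X.equivFin ⟨x, hx⟩).2 hXt⟩, ?_⟩
    simp [R]
  refine ⟨R, fun v hv => ?_⟩
  have h4 : laRow M C v ∈ laSpan M X C := by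
    rw [h3]
    exact Submodule.subset_span ⟨v, hv, rfl⟩
  have h5 : laSpan M X C ≤ Submodule.span (ZMod 2) (Set.range (fun i => laRow M C (R i))) := by
    apply Submodule.span_mono
    rintro _ ⟨x, hx, rfl⟩
    obtain ⟨i, hi⟩ := hR x hx
    exact ⟨i, by simp only [hi]⟩
  obtain ⟨c, hc⟩ := (Submodule.mem_span_range_iff_exists_fun (ZMod 2)).1 (h5 h4)
  refine ⟨c, fun w hw => ?_⟩
  have h6 := congrFun hc w
  simp only [Finset.sum_apply, Pi.smul_apply, laRow, hw, if_true, smul_eq_mul] at h6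
  exact h6.symm

/-- a single vertex can always be split off when the rank is not maximal -/
theorem la_single (hM : M.transpose = M) {B : Finset V} {t : ℕ} (ht : 1 ≤ t)
    (h : rk M B Bᶜ < t) (v : V) :
    rk M (B ∩ {v}) (B ∩ {v})ᶜ ≤ t ∧ rk M (B \ {v}) (B \ {v})ᶜ ≤ t := by
  constructor
  · refine (rk_le_card _ _).trans ?_
    refine (Finset.card_le_card Finset.inter_subset_right).trans ?_
    simpa using ht
  · have h1 : (B \ {v})ᶜ ⊆ Bᶜ ∪ {v} := by
      intro x hx
      simp only [Finset.mem_compl, Finset.mem_sdiff, Finset.mem_singleton, Finset.mem_union] at hx ⊢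
      tauto
    have h2 : rk M (B \ {v}) (B \ {v})ᶜ ≤ rk M (B \ {v}) (Bᶜ ∪ {v}) := rk_mono_cols h1
    have h3 := rk_cols_submod hM (B \ {v}) Bᶜ {v}
    have h4 : rk M (B \ {v}) {v} ≤ 1 := by
      rw [rk_symm hM]
      simpa using rk_le_card (M := M) {v} (B \ {v})
    have h5 : rk M (B \ {v}) Bᶜ ≤ rk M B Bᶜ := rk_mono_rows Finset.sdiff_subset
    omega

theorem la_split_aux (hM : M.transpose = M) {B Z X : Finset V} {t k : ℕ} (hB : rk M B Bᶜ = t)
    (hX : X ⊆ B) (hXr : rk M X Bᶜ = X.card) (hZ : rk M Z Zᶜ ≤ k)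
    (h2 : 2 * k ≤ (X \ Z).card) : rk M (B ∩ Z) (B ∩ Z)ᶜ ≤ t := by
  have a1 := rk_submod hM B Z Bᶜ Zᶜ
  rw [← Finset.compl_inter] at a1
  -- lower bound for `f (B ∪ Z)`
  have a2 : rk M (X \ Z) (Bᶜ ∩ Zᶜ) ≤ rk M (B ∪ Z) (Bᶜ ∩ Zᶜ) :=
    rk_mono_rows ((Finset.sdiff_subset.trans hX).trans Finset.subset_union_left)
  have a3 := rk_cols_submod hM (X \ Z) (Bᶜ ∩ Zᶜ) (Bᶜ ∩ Z)
  have a4 : rk M (X \ Z) Bᶜ ≤ rk M (X \ Z) ((Bᶜ ∩ Zᶜ) ∪ (Bᶜ ∩ Z)) := by
    apply rk_mono_cols
    intro x hx
    simp only [Finset.mem_union, Finset.mem_inter, Finset.mem_compl] at hx ⊢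
    tauto
  have a5 : rk M (X \ Z) (Bᶜ ∩ Z) ≤ k := by
    have b1 : rk M (X \ Z) (Bᶜ ∩ Z) ≤ rk M Zᶜ (Bᶜ ∩ Z) := by
      apply rk_mono_rows
      intro x hx
      simp only [Finset.mem_sdiff, Finset.mem_compl] at hx ⊢
      tauto
    have b2 : rk M Zᶜ (Bᶜ ∩ Z) ≤ rk M Zᶜ Z := rk_mono_cols Finset.inter_subset_right
    have b3 := rk_symm hM Zᶜ Z
    omega
  have a6 : (X \ Z).card ≤ rk M (X \ Z) Bᶜ := by
    have b1 := rk_rows_submod (M := M) (X \ Z) (X ∩ Z) Bᶜ
    have b2 : (X \ Z) ∪ (X ∩ Z) = X := by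
      ext x
      simp only [Finset.mem_union, Finset.mem_sdiff, Finset.mem_inter]
      tauto
    rw [b2] at b1
    have b3 := rk_le_card (M := M) (X ∩ Z) Bᶜ
    have b4 : (X ∩ Z).card + (X \ Z).card = X.card := Finset.card_inter_add_card_sdiff X Z
    omega
  omega

/-- the splitting inequality (submodularity of cut-rank) -/
theorem la_split (hM : M.transpose = M) {B Z X : Finset V} {t k : ℕ} (hB : rk M B Bᶜ = t)
    (hX : X ⊆ B) (hXr : rk M X Bᶜ = X.card) (hZ : rk M Z Zᶜ ≤ k) (h1 : 2 * k ≤ (X ∩ Z).card)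
    (h2 : 2 * k ≤ (X \ Z).card) :
    rk M (B ∩ Z) (B ∩ Z)ᶜ ≤ t ∧ rk M (B \ Z) (B \ Z)ᶜ ≤ t := by
  refine ⟨la_split_aux hM hB hX hXr hZ h2, ?_⟩
  have hZ' : rk M Zᶜ Zᶜᶜ ≤ k := by
    rw [compl_compl, rk_symm hM]
    exact hZ
  have h1' : 2 * k ≤ (X \ Zᶜ).card := by
    have : X \ Zᶜ = X ∩ Z := by
      ext x
      simp only [Finset.mem_sdiff, Finset.mem_inter, Finset.mem_compl]
      tauto
    rw [this]
    exact h1
  have h := la_split_aux hM hB hX hXr hZ' h1'
  have e : B ∩ Zᶜ = B \ Z := by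
    ext x
    simp only [Finset.mem_sdiff, Finset.mem_inter, Finset.mem_compl]
  rw [e] at h
  exact h

end LA

end Pool.Agent.H333R2.Col
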