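import Pool.Agent.H333R2.Col.Notions
import Pool.Agent.H333R2.Col.LA
import Pool.Agent.H333R2.Col.CL

/-!
# Module BR: bridge between the tests and the ranks
-/

namespace Pool.Agent.H333R2.Col

open Pool.Agent.H622R2


theorem br_bz_inj {a b : Bool} (h : bz a = bz b) : a = b := by
  cases a <;> cases b <;> simp_all [bz]

theorem br_exists_bz (x : ZMod 2) : ∃ b : Bool, bz b = x := by
  fin_cases x
  · exact ⟨false, rfl⟩
  · exact ⟨true, rfl⟩

theorem br_mem_fs {n : ℕ} {B : List ℕ} {i : Fin n} : i ∈ fs n B ↔ (i : ℕ) ∈ B := by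
  simp [fs]

theorem br_xor {a b : Bool} : (a ^^ b) = false ↔ a = b := by cases a <;> cases b <;> simp

theorem br_inSpan_iff {adj : ℕ → ℕ → Bool} {n t : ℕ} {B R : List ℕ} {v : ℕ} :
    inSpan adj n t B R v = true ↔
      ∃ c ∈ cube t, ∀ w < n, w ∉ B → adj v w = comb adj c R w := by
  unfold inSpan
  rw [List.any_eq_true]
  refine exists_congr fun c => and_congr_right fun _ => ?_
  rw [List.all_eq_true]
  simp only [List.mem_range, Bool.or_eq_true, decide_eq_true_eq, Bool.not_eq_true',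
    br_xor]
  exact ⟨fun h w hw hB => (h w hw).resolve_left hB, fun h w hw => or_iff_not_imp_left.2 (h w hw)⟩

theorem br_rankLe_iff {adj : ℕ → ℕ → Bool} {n t : ℕ} {B : List ℕ} :
    rankLe adj n t B = true ↔ ∃ R ∈ tuples (List.range n) t, ∀ v ∈ B,
      ∃ c ∈ cube t, ∀ w < n, w ∉ B → adj v w = comb adj c R w := by
  unfold rankLe
  rw [List.any_eq_true]
  refine exists_congr fun R => and_congr_right fun _ => ?_
  rw [List.all_eq_true]
  exact forall_congr' fun v => forall_congr' fun _ => br_inSpan_iff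

/-- translate a tuple into a function -/
theorem br_exists_fn {n k : ℕ} {A : List ℕ} (hA : A ∈ tuples (List.range n) k) :
    ∃ R : Fin k → Fin n, A = List.ofFn fun i => (R i : ℕ) := by
  rw [mem_tuples] at hA
  obtain ⟨hl, h⟩ := hA
  subst hl
  refine ⟨fun i => ⟨A.get i, List.mem_range.1 (h _ (List.get_mem _ _))⟩, ?_⟩
  exact (List.ofFn_get A).symm

theorem br_exists_fnB {k : ℕ} {c : List Bool} (hc : c ∈ cube k) :
    ∃ f : Fin k → Bool, c = List.ofFn f := by
  rw [mem_cube] at hc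
  subst hc
  exact ⟨c.get, (List.ofFn_get c).symm⟩

/-- the closure has small rank -/
theorem rk_le_of_comb {adj : ℕ → ℕ → Bool} {n k : ℕ} {A B : List ℕ}
    (hA : A ∈ tuples (List.range n) k)
    (h : ∀ v ∈ B, ∃ c ∈ cube k, ∀ w < n, w ∉ B → adj v w = comb adj c A w) :
    rk (matz adj n) (fs n B) (fs n B)ᶜ ≤ k := by
  obtain ⟨R, rfl⟩ := br_exists_fn hA
  refine rk_le_of_rows R fun v hv => ?_
  obtain ⟨c, hc, hc2⟩ := h v (br_mem_fs.1 hv)
  obtain ⟨f, rfl⟩ := br_exists_fnB hc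
  refine ⟨fun i => bz (f i), fun w hw => ?_⟩
  have hwB : (w : ℕ) ∉ B := fun h => (Finset.mem_compl.1 hw) (br_mem_fs.2 h)
  have h1 := hc2 w w.2 hwB
  show bz (adj v w) = _
  rw [h1, comb_eq_sum]
  rfl

theorem rankLe_iff {adj : ℕ → ℕ → Bool} {n t : ℕ} (hn : 0 < n) {B : List ℕ}
    (hB : ∀ v ∈ B, v < n) :
    rankLe adj n t B = true ↔ rk (matz adj n) (fs n B) (fs n B)ᶜ ≤ t := by
  rw [br_rankLe_iff]
  constructor
  · rintro ⟨R, hR, h⟩
    exact rk_le_of_comb hR h
  · intro h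
    have : Nonempty (Fin n) := ⟨⟨0, hn⟩⟩
    obtain ⟨R, hR⟩ := exists_rows h
    refine ⟨List.ofFn fun i => (R i : ℕ), ?_, fun v hv => ?_⟩
    · rw [mem_tuples]
      refine ⟨by simp, fun x hx => ?_⟩
      obtain ⟨i, rfl⟩ := (List.mem_ofFn' _ _).1 hx
      exact List.mem_range.2 (R i).2
    · obtain ⟨c, hc⟩ := hR ⟨v, hB v hv⟩ (br_mem_fs.2 hv)
      choose f hf using fun i => br_exists_bz (c i)
      refine ⟨List.ofFn f, by rw [mem_cube]; simp, fun w hw hwB => ?_⟩
      have h1 := hc ⟨w, hw⟩ (Finset.mem_compl.2 fun h => hwB (br_mem_fs.1 h))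
      apply br_bz_inj
      rw [comb_eq_sum]
      have h2 : bz (adj v w) = ∑ i, c i * bz (adj (R i) w) := h1
      rw [h2]
      exact Finset.sum_congr rfl fun i _ => by rw [hf]

end Pool.Agent.H333R2.Col
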