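import Pool.Agent.H333R2.Col.Defs
import Pool.Agent.Helper856.Cw.Width

/-!
# Notions for the correctness proof (no proofs here)
-/

namespace Pool.Agent.H333R2.Col

open Pool.Agent.H622R2

/-! ### Linear algebra -/

/-- The rank over `ZMod 2` of the submatrix with rows in `A` and columns in `C`. -/
noncomputable def rk {V : Type} [Fintype V] [DecidableEq V] (M : Matrix V V (ZMod 2))
    (A C : Finset V) : ℕ :=
  (Matrix.of (fun i j => if i ∈ A ∧ j ∈ C then M i j else 0) : Matrix V V (ZMod 2)).rank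

/-- Booleans as elements of `ZMod 2`. -/
def bz (b : Bool) : ZMod 2 := if b = true then 1 else 0

/-- The adjacency matrix over `ZMod 2`. -/
def matz (adj : ℕ → ℕ → Bool) (n : ℕ) : Matrix (Fin n) (Fin n) (ZMod 2) :=
  Matrix.of fun i j => bz (adj i j)

/-- The finite set of the elements of a list. -/
def fs (n : ℕ) (B : List ℕ) : Finset (Fin n) := Finset.univ.filter (fun i => (i : ℕ) ∈ B)

/-- The graph on `Fin n` of a symmetric irreflexive adjacency test. -/
def gr (adj : ℕ → ℕ → Bool) (n : ℕ) : SimpleGraph (Fin n) where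
  Adj i j := i ≠ j ∧ (adj i j = true ∨ adj j i = true)
  symm := ⟨fun _ _ h => ⟨h.1.symm, h.2.symm⟩⟩
  loopless := ⟨fun _ h => h.1 rfl⟩

/-- Standing assumption on the adjacency test. -/
structure Good (adj : ℕ → ℕ → Bool) : Prop where
  symm : ∀ u v, adj u v = adj v u
  irrefl : ∀ v, adj v v = false

/-- `B` is a canonical list of vertices: a sublist of `0, ..., n-1`. -/
def Can (n : ℕ) (B : List ℕ) : Prop := B.Sublist (List.range n)

/-! ### Tables -/

/-- An independent set. -/
def Indep (adj : ℕ → ℕ → Bool) (S : List ℕ) : Prop := ∀ u ∈ S, ∀ v ∈ S, adj u v = false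

/-- `L` is a list of `q` independent subsets of `B` which cover `B`. -/
def IsCov (adj : ℕ → ℕ → Bool) (q : ℕ) (B : List ℕ) (L : List (List ℕ)) : Prop :=
  L.length = q ∧ (∀ S ∈ L, (∀ v ∈ S, v ∈ B) ∧ Indep adj S) ∧ ∀ v ∈ B, ∃ S ∈ L, v ∈ S

/-- The table `T` represents all covers of `B` up to equivalence. -/
def Rep (adj : ℕ → ℕ → Bool) (n q : ℕ) (B : List ℕ) (T : List (List (List ℕ))) : Prop :=
  (∀ L ∈ T, IsCov adj q B L) ∧ ∀ L, IsCov adj q B L → ∃ L' ∈ T, sameSig adj n B L' L = true

end Pool.Agent.H333R2.Col
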