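import Pool.Agent.H333R2.Col.NC
import Pool.Agent.H333R2.Col.Notions

/-!
# The number of inequivalent states
-/

namespace Pool.Agent.H333R2.Col

theorem cube_length (k : ℕ) : (cube k).length = 2 ^ k := by
  induction k with
  | zero => rfl
  | succ k ih =>
    have h : (cube (k + 1)).length = ((cube k).map (fun _ => 2)).sum := by
      show ((cube k).flatMap fun c => [false :: c, true :: c]).length = _
      rw [List.length_flatMap]
      rfl
    rw [h, List.map_const', List.sum_replicate, ih, smul_eq_mul, pow_succ]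

/-- few neighbourhoods -/
theorem sig_card {adj : ℕ → ℕ → Bool} {n t : ℕ} {B : List ℕ}
    (hB : rankLe adj n t B = true) :
    ∃ F : Finset (List ℕ), F.card ≤ 2 ^ (2 ^ t) ∧ ∀ S : List ℕ, (∀ v ∈ S, v ∈ B) →
      sig adj n B S ∈ F := by
  classical
  unfold rankLe at hB
  rw [List.any_eq_true] at hB
  obtain ⟨R, -, hR⟩ := hB
  rw [List.all_eq_true] at hR
  have hR' : ∀ v ∈ B, ∃ c ∈ cube t, ∀ w < n, w ∉ B → adj v w = comb adj c R w := by
    intro v hv
    have h := hR v hv
    unfold inSpan at h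
    rw [List.any_eq_true] at h
    obtain ⟨c, hc, h⟩ := h
    rw [List.all_eq_true] at h
    refine ⟨c, hc, fun w hw hwB => ?_⟩
    have h1 := h w (List.mem_range.2 hw)
    simp only [hwB, decide_false, Bool.false_or] at h1
    revert h1
    cases adj v w <;> cases comb adj c R w <;> simp
  set g : Finset (List Bool) → List ℕ := fun C =>
    (List.range n).filter (fun w => decide (w ∉ B ∧ ∃ c ∈ C, comb adj c R w = true)) with hg
  refine ⟨(cube t).toFinset.powerset.image g, ?_, ?_⟩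
  · refine Finset.card_image_le.trans ?_
    rw [Finset.card_powerset]
    exact Nat.pow_le_pow_right (by norm_num) ((List.toFinset_card_le _).trans
      (cube_length t).le)
  · intro S hS
    rw [Finset.mem_image]
    refine ⟨(cube t).toFinset.filter (fun c => ∃ v ∈ S, ∀ w < n, w ∉ B →
      adj v w = comb adj c R w), Finset.mem_powerset.2 (Finset.filter_subset _ _), ?_⟩
    simp only [hg]
    unfold sig
    apply List.filter_congr
    intro w hw
    rw [List.mem_range] at hw
    rw [Bool.eq_iff_iff]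
    simp only [decide_eq_true_eq, Bool.and_eq_true, Bool.not_eq_true', decide_eq_false_iff_not,
      List.any_eq_true, Finset.mem_filter, List.mem_toFinset]
    constructor
    · rintro ⟨hwB, c, ⟨-, v, hv, h⟩, hc⟩
      exact ⟨hwB, v, hv, by rw [h w hw hwB, hc]⟩
    · rintro ⟨hwB, v, hv, h⟩
      obtain ⟨c, hc, h1⟩ := hR' v (hS v hv)
      exact ⟨hwB, c, ⟨hc, v, hv, h1⟩, by rw [← h1 w hw hwB, h]⟩

/-- the count function of a list -/
noncomputable def cnt (q : ℕ) (F : Finset (List ℕ)) (L : List (List ℕ)) (h : L.length ≤ q) :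
    F → Fin (q + 1) := by
  classical
  exact fun a => ⟨L.count a.1, Nat.lt_succ_of_le (List.count_le_length.trans h)⟩

theorem perm_of_cnt {q : ℕ} {F : Finset (List ℕ)} {L L' : List (List ℕ)} {h : L.length ≤ q}
    {h' : L'.length ≤ q} (hL : ∀ a ∈ L, a ∈ F) (hL' : ∀ a ∈ L', a ∈ F)
    (he : cnt q F L h = cnt q F L' h') : L.Perm L' := by
  classical
  rw [List.perm_iff_count]
  intro a
  by_cases ha : a ∈ F
  · have := congrArg Fin.val (congrFun he ⟨a, ha⟩)
    simp only [cnt] at this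
    convert this using 2
  · rw [List.count_eq_zero.2 (fun h => ha (hL a h)), List.count_eq_zero.2 (fun h => ha (hL' a h))]

theorem states_card {adj : ℕ → ℕ → Bool} {n t q : ℕ} {B B1 B2 : List ℕ}
    (hB : rankLe adj n t B = true) (hB1 : rankLe adj n t B1 = true)
    (hB2 : rankLe adj n t B2 = true) (X : List MState)
    (h1 : ∀ s ∈ X, s.1.length ≤ q ∧ ∀ S ∈ s.1, ∀ v ∈ S, v ∈ B1)
    (h2 : ∀ s ∈ X, s.2.1.length ≤ q ∧ ∀ S ∈ s.2.1, ∀ v ∈ S, v ∈ B2)
    (h3 : ∀ s ∈ X, s.2.2.length ≤ q ∧ ∀ S ∈ s.2.2, ∀ v ∈ S, v ∈ B)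
    (hX : X.Pairwise (fun a b => sameKey adj n B B1 B2 b a = false)) :
    X.length ≤ (q + 1) ^ expB t := by
  classical
  obtain ⟨F, hF, hFS⟩ := sig_card hB
  obtain ⟨F1, hF1, hFS1⟩ := sig_card hB1
  obtain ⟨F2, hF2, hFS2⟩ := sig_card hB2
  have hl1 : ∀ s ∈ X, (s.1.map (sig adj n B1)).length ≤ q := fun s hs => by
    rw [List.length_map]; exact (h1 s hs).1
  have hl2 : ∀ s ∈ X, (s.2.1.map (sig adj n B2)).length ≤ q := fun s hs => by
    rw [List.length_map]; exact (h2 s hs).1
  have hl3 : ∀ s ∈ X, (s.2.2.map (sig adj n B)).length ≤ q := fun s hs => by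
    rw [List.length_map]; exact (h3 s hs).1
  have hm1 : ∀ s ∈ X, ∀ a ∈ s.1.map (sig adj n B1), a ∈ F1 := fun s hs a ha => by
    obtain ⟨S, hS, rfl⟩ := List.mem_map.1 ha
    exact hFS1 S ((h1 s hs).2 S hS)
  have hm2 : ∀ s ∈ X, ∀ a ∈ s.2.1.map (sig adj n B2), a ∈ F2 := fun s hs a ha => by
    obtain ⟨S, hS, rfl⟩ := List.mem_map.1 ha
    exact hFS2 S ((h2 s hs).2 S hS)
  have hm3 : ∀ s ∈ X, ∀ a ∈ s.2.2.map (sig adj n B), a ∈ F := fun s hs a ha => by
    obtain ⟨S, hS, rfl⟩ := List.mem_map.1 ha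
    exact hFS S ((h3 s hs).2 S hS)
  let f : {s // s ∈ X} → (F1 → Fin (q + 1)) × (F2 → Fin (q + 1)) × (F → Fin (q + 1)) :=
    fun s => (cnt q F1 _ (hl1 s.1 s.2), cnt q F2 _ (hl2 s.1 s.2), cnt q F _ (hl3 s.1 s.2))
  have hf : ∀ s s' : {s // s ∈ X}, f s = f s' → sameKey adj n B B1 B2 s.1 s'.1 = true := by
    intro s s' h
    have e1 := congrArg Prod.fst h
    have e2 := congrArg (fun p => p.2.1) h
    have e3 := congrArg (fun p => p.2.2) h
    unfold sameKey sameSig
    rw [Bool.and_eq_true, Bool.and_eq_true]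
    exact ⟨permB_iff.2 (perm_of_cnt (h := hl1 _ s.2) (h' := hl1 _ s'.2) (hm1 _ s.2)
        (hm1 _ s'.2) e1),
      permB_iff.2 (perm_of_cnt (h := hl2 _ s.2) (h' := hl2 _ s'.2) (hm2 _ s.2) (hm2 _ s'.2) e2),
      permB_iff.2 (perm_of_cnt (h := hl3 _ s.2) (h' := hl3 _ s'.2) (hm3 _ s.2) (hm3 _ s'.2) e3)⟩
  have hnd : (X.attach.map f).Nodup := by
    unfold List.Nodup
    rw [List.pairwise_map]
    have h4 : (X.attach.map Subtype.val).Pairwise
        (fun a b => sameKey adj n B B1 B2 b a = false) := by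
      rw [List.attach_map_subtype_val]
      exact hX
    rw [List.pairwise_map] at h4
    refine h4.imp ?_
    intro a b hab he
    have := hf b a he.symm
    rw [hab] at this
    exact Bool.false_ne_true this
  have hlen := List.Nodup.length_le_card hnd
  rw [List.length_map, List.length_attach] at hlen
  refine hlen.trans ?_
  simp only [Fintype.card_prod, Fintype.card_fun, Fintype.card_fin, Fintype.card_coe]
  rw [← pow_add, ← pow_add]
  refine Nat.pow_le_pow_right (Nat.succ_pos q) ?_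
  unfold expB
  omega

end Pool.Agent.H333R2.Col
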