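import Mathlib
import Pool.Agent.H622R2.MatGraph

/-!
# The algorithm: colouring graphs which can be split along cuts of bounded complexity

The input is a graph on `0, ..., n-1` given by a Boolean adjacency function `adj`
(later: by an adjacency matrix).  Sets of vertices are lists of numbers.

1. `split` looks, by brute force over polynomially many candidates, for a partition of a set `B`
   into two non-empty sets whose rows (outside the set) span a space of dimension at most `t`.
2. `part` refines the vertex set level by level along these splits.
3. `tabs` computes, level by level, for every part `B` a list of representative covers of `B`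
   by `q` independent sets; two covers are equivalent if their lists of neighbourhoods outside
   of `B` are permutations of each other.
-/

namespace Pool.Agent.H333R2.Col

open Pool.Agent.H622R2

/-- Adjacency test of the graph with adjacency matrix `M`. -/
def adjB (M : List (List Bool)) (u v : ℕ) : Bool :=
  !decide (u = v) && (entry M u v || entry M v u)

/-- All Boolean vectors of length `k`. -/
def cube : ℕ → List (List Bool)
  | 0 => [[]]
  | k + 1 => (cube k).flatMap fun c => [false :: c, true :: c]

/-- All tuples of length `k` with entries in `V`. -/
def tuples (V : List ℕ) : ℕ → List (List ℕ)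
  | 0 => [[]]
  | k + 1 => V.flatMap fun v => (tuples V k).map fun l => v :: l

section Split

variable (adj : ℕ → ℕ → Bool) (n : ℕ)

/-- The entry in column `w` of the sum (modulo 2) of the rows of those elements of `R` whose
coefficient is `true`. -/
def comb (c : List Bool) (R : List ℕ) (w : ℕ) : Bool :=
  decide (((c.zip R).filter (fun p => p.1 && adj p.2 w)).length % 2 = 1)

/-- Outside of `B`, the row of `v` is a combination of the rows of `R` (`R` of length `t`). -/
def inSpan (t : ℕ) (B R : List ℕ) (v : ℕ) : Bool :=
  (cube t).any fun c => (List.range n).all fun w =>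
    decide (w ∈ B) || !(adj v w ^^ comb adj c R w)

/-- Outside of `B`, the rows of `B` span a space of dimension at most `t`. -/
def rankLe (t : ℕ) (B : List ℕ) : Bool :=
  (tuples (List.range n) t).any fun R => B.all fun v => inSpan adj n t B R v

/-- Coefficients of the row of `v` with respect to the rows of `A`, read off from the columns
`D`. -/
def coef (k : ℕ) (A D : List ℕ) (v : ℕ) : List Bool :=
  ((cube k).filter (fun c => D.all fun d => !(adj v d ^^ comb adj c A d))).head?.getD []

/-- If `v` is in the set, then so is `w`. -/
def forces (k : ℕ) (A D : List ℕ) (v w : ℕ) : Bool :=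
  adj v w ^^ comb adj (coef adj k A D v) A w

/-- One step of the closure under `forces`. -/
def closStep (k : ℕ) (A D Z : List ℕ) : List ℕ :=
  (List.range n).filter fun w => decide (w ∈ Z) || Z.any (fun v => forces adj k A D v w)

/-- The closure of `X` under `forces`. -/
def clos (k : ℕ) (A D X : List ℕ) : List ℕ := (closStep adj n k A D)^[n] X

/-- Candidates for sets cutting a part. -/
def cands (k t : ℕ) : List (List ℕ) :=
  (tuples (List.range n) k).flatMap fun A => (tuples (List.range n) (4 ^ k)).flatMap fun D =>
    (tuples (List.range n) t).map fun X => clos adj n k A D X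

/-- The two parts of `B` cut by `Z`. -/
def splitBy (B Z : List ℕ) : List ℕ × List ℕ :=
  (B.filter (fun v => decide (v ∈ Z)), B.filter (fun v => !decide (v ∈ Z)))

/-- The test of a split. -/
def goodSplit (t : ℕ) (p : List ℕ × List ℕ) : Bool :=
  (!p.1.isEmpty && !p.2.isEmpty) && (rankLe adj n t p.1 && rankLe adj n t p.2)

/-- The first split of `B` found. -/
def split (k t : ℕ) (B : List ℕ) : Option (List ℕ × List ℕ) :=
  ((((B.map (fun v => [v])) ++ cands adj n k t).map (splitBy B)).filter (goodSplit adj n t)).head?

/-- The next smaller part containing `v`. -/
def stepPart (k t : ℕ) (v : ℕ) (P : List ℕ) : List ℕ :=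
  (split adj n k t P).elim P (fun p => if v ∈ p.1 then p.1 else p.2)

/-- The part of level `l.length` containing `v`. -/
def part (k t : ℕ) (l : List ℕ) (v : ℕ) : List ℕ :=
  (stepPart adj n k t v)^[l.length] (List.range n)

end Split

/-- Permutation test for lists. -/
def permB (l l' : List (List ℕ)) : Bool :=
  (l ++ l').all fun a => decide ((l.filter (fun b => decide (b = a))).length =
    (l'.filter (fun b => decide (b = a))).length)

/-- Keep one element of every class of a relation, and at most `m` elements. -/
def nubCut {σ : Type} (eqv : σ → σ → Bool) (m : ℕ) (l : List σ) : List σ :=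
  l.foldl (fun acc s => if (acc.any (fun t => eqv t s) || decide (m ≤ acc.length)) = true
    then acc else s :: acc) []

/-- All ways to pick one element of a list, with the list of the remaining elements. -/
def picks (L : List (List ℕ)) : List (List ℕ × List (List ℕ)) :=
  L.zipIdx.map fun q => (q.1, (L.zipIdx.filter (fun p => !decide (p.2 = q.2))).map Prod.fst)

section Table

variable (adj : ℕ → ℕ → Bool) (n : ℕ)

/-- The neighbourhood of `S` outside of `B`. -/
def sig (B S : List ℕ) : List ℕ :=
  (List.range n).filter fun w => !decide (w ∈ B) && S.any (fun v => adj v w)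

/-- Two lists of sets have the same neighbourhoods outside of `B`, up to the order. -/
def sameSig (B : List ℕ) (L L' : List (List ℕ)) : Bool :=
  permB (L.map (sig adj n B)) (L'.map (sig adj n B))

/-- No edge between two sets. -/
def noEdge (S S' : List ℕ) : Bool := S.all fun u => S'.all fun v => !adj u v

/-- The union of two sets. -/
def uni (S S' : List ℕ) : List ℕ :=
  (List.range n).filter (fun v => decide (v ∈ S) || decide (v ∈ S'))

/-- A state of the merging process: the classes left on both sides and the classes formed. -/
abbrev MState := List (List ℕ) × List (List ℕ) × List (List ℕ)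

/-- Equivalence of states. -/
def sameKey (B B1 B2 : List ℕ) (s s' : MState) : Bool :=
  sameSig adj n B1 s.1 s'.1 && (sameSig adj n B2 s.2.1 s'.2.1 && sameSig adj n B s.2.2 s'.2.2)

/-- Form one more class. -/
def mergeNext (s : MState) : List MState :=
  (picks s.1).flatMap fun a => ((picks s.2.1).filter (fun b => noEdge adj a.1 b.1)).map fun b =>
    (a.2, b.2, uni n a.1 b.1 :: s.2.2)

/-- The states at the beginning of the merging process. -/
def mergeInit (m : ℕ) (B B1 B2 : List ℕ) (T1 T2 : List (List (List ℕ))) : List MState :=
  nubCut (sameKey adj n B B1 B2) m (T1.flatMap fun L1 => T2.map fun L2 => (L1, L2, []))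

/-- One round of the merging process. -/
def mergeRound (m : ℕ) (B B1 B2 : List ℕ) (X : List MState) : List MState :=
  nubCut (sameKey adj n B B1 B2) m (X.flatMap (mergeNext adj n))

/-- The table of `B` from the tables of the two parts; `Q` is the list of colours. -/
def merge (m : ℕ) (Q B B1 B2 : List ℕ) (T1 T2 : List (List (List ℕ))) : List (List (List ℕ)) :=
  ((mergeRound adj n m B B1 B2)^[Q.length] (mergeInit adj n m B B1 B2 T1 T2)).map
    (fun s => s.2.2)

/-- The table of a part with one vertex: the number of classes containing it is `1, ..., q`. -/
def base (Q B : List ℕ) : List (List (List ℕ)) :=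
  Q.map fun j => Q.map fun i => if i ≤ j then B else []

/-- The list of smaller numbers. -/
def below (r : ℕ) : List ℕ := (List.range n).filter (fun i => decide (i < r))

/-- The table of the part of level `r` containing `v`, from the tables of level `r + 1`. -/
def tabAt (k t m : ℕ) (Q : List ℕ) (tab : List (List (List (List ℕ)))) (r v : ℕ) :
    List (List (List ℕ)) :=
  (split adj n k t (part adj n k t (below n r) v)).elim (base Q (part adj n k t (below n r) v))
    (fun p => merge adj n m Q (part adj n k t (below n r) v) p.1 p.2
      (tab.getD (p.1.head?.getD 0) []) (tab.getD (p.2.head?.getD 0) []))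

/-- The tables of all levels, starting from the finest. -/
def tabs (k t m : ℕ) (Q : List ℕ) : List (List (List (List ℕ))) :=
  (List.range n).reverse.foldl
    (fun tab r => (List.range n).map fun v => tabAt adj n k t m Q tab r v)
    ((List.range n).map fun v => base Q (part adj n k t (List.range n) v))

end Table

/-- The dimension bound used by the algorithm. -/
def dimB (k : ℕ) : ℕ := 6 * k

/-- The exponent in the bound for the number of inequivalent states. -/
def expB (t : ℕ) : ℕ := 3 * 2 ^ (2 ^ t)

/-- The algorithm. -/
def colTest (k : ℕ) (x : List (List Bool) × ℕ) : Bool :=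
  if x.1.length ≤ x.2 then true
  else !((tabs (adjB x.1) x.1.length k (dimB k) ((x.1.length + 1) ^ expB (dimB k))
    (below x.1.length x.2)).getD 0 []).isEmpty

/-! ### Notions for the correctness proof -/

/-- The complexity parameter: every set `X` of at least `3 m` vertices can be cut into two parts
with at least `m` elements by a set `Z` such that the vertices of `Z` fall into `k` types with the
same neighbours outside of `Z`. -/
def HasSplits (k : ℕ) {V : Type} (G : SimpleGraph V) : Prop :=
  ∀ (X : Set V) (m : ℕ), 3 * m ≤ X.ncard → ∃ (Z : Set V) (τ : V → Fin k),
    (∀ u ∈ Z, ∀ v ∈ Z, τ u = τ v → ∀ w, w ∉ Z → (G.Adj u w ↔ G.Adj v w)) ∧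
    m ≤ (X ∩ Z).ncard ∧ m ≤ (X \ Z).ncard

end Pool.Agent.H333R2.Col
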