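import Pool.Agent.H333R2.Col.Notions

/-!
# Permutation test, picks, nubCut
-/

namespace Pool.Agent.H333R2.Col

theorem permB_iff {l l' : List (List ℕ)} : permB l l' = true ↔ l.Perm l' := by
  classical
  have hc : ∀ (m : List (List ℕ)) (a : List ℕ),
      (m.filter (fun b => decide (b = a))).length = m.count a := by
    intro m a
    rw [List.count_eq_length_filter]
    congr 1
    exact List.filter_congr (fun b _ => by
      rw [Bool.eq_iff_iff]
      simp)
  unfold permB
  rw [List.all_eq_true]
  simp only [decide_eq_true_eq, hc, List.mem_append]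
  constructor
  · intro h
    rw [List.perm_iff_count]
    intro a
    by_cases ha : a ∈ l ∨ a ∈ l'
    · exact h a ha
    · push Not at ha
      rw [List.count_eq_zero.2 ha.1, List.count_eq_zero.2 ha.2]
  · intro h a _
    exact h.count_eq a

/-- removing one index -/
theorem perm_pick {α : Type} (L : List α) (k i : ℕ) (x : α) (h : (x, i) ∈ L.zipIdx k) :
    L.Perm (x :: (((L.zipIdx k).filter (fun p => !decide (p.2 = i))).map Prod.fst)) := by
  induction L generalizing k with
  | nil => simp at h
  | cons a L ih =>
    rw [List.zipIdx_cons] at h ⊢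
    rcases List.mem_cons.1 h with h | h
    · obtain ⟨rfl, rfl⟩ := Prod.mk.inj h
      have h1 : (L.zipIdx (i + 1)).filter (fun p => !decide (p.2 = i)) = L.zipIdx (i + 1) := by
        apply List.filter_eq_self.2
        intro p hp
        have := List.le_snd_of_mem_zipIdx hp
        simp only [Bool.not_eq_true', decide_eq_false_iff_not]
        omega
      have h2 : (L.zipIdx (i + 1)).map Prod.fst = L := by simp
      rw [List.filter_cons]
      simp only [decide_true, Bool.not_true, Bool.false_eq_true, if_false]
      rw [h1, h2]
    · have hlt := List.le_snd_of_mem_zipIdx h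
      have hne : ¬ (k = i) := by simp only at hlt; omega
      rw [List.filter_cons]
      simp only [hne, decide_false, Bool.not_false, if_true, List.map_cons]
      exact ((ih (k + 1) h).cons a).trans (List.Perm.swap _ _ _)

theorem mem_picks {L : List (List ℕ)} {a : List ℕ × List (List ℕ)} (h : a ∈ picks L) :
    L.Perm (a.1 :: a.2) := by
  unfold picks at h
  obtain ⟨q, hq, rfl⟩ := List.mem_map.1 h
  exact perm_pick L 0 q.2 q.1 hq

theorem exists_pick {L : List (List ℕ)} {S : List ℕ} (h : S ∈ L) :
    ∃ a ∈ picks L, a.1 = S ∧ L.Perm (S :: a.2) := by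
  obtain ⟨i, hi, hS⟩ := List.mem_iff_getElem.1 h
  have hm : (S, i) ∈ L.zipIdx := by
    rw [List.mem_zipIdx_iff_getElem?]
    simp [hi, hS]
  refine ⟨(S, (L.zipIdx.filter (fun p => !decide (p.2 = i))).map Prod.fst), ?_, rfl,
    perm_pick L 0 i S hm⟩
  unfold picks
  exact List.mem_map.2 ⟨(S, i), hm, rfl⟩

section Nub

variable {σ : Type} {eqv : σ → σ → Bool} {m : ℕ}

/-- one step of `nubCut` -/
def nubStep (eqv : σ → σ → Bool) (m : ℕ) (acc : List σ) (s : σ) : List σ :=
  if (acc.any (fun t => eqv t s) || decide (m ≤ acc.length)) = true then acc else s :: acc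

theorem nubCut_eq {l : List σ} : nubCut eqv m l = l.foldl (nubStep eqv m) [] := rfl

theorem nubStep_sub {acc : List σ} {s t : σ} (h : t ∈ acc) : t ∈ nubStep eqv m acc s := by
  unfold nubStep
  split
  · exact h
  · exact List.mem_cons_of_mem _ h

theorem foldl_sub {l acc : List σ} {t : σ} (h : t ∈ acc) : t ∈ l.foldl (nubStep eqv m) acc := by
  induction l generalizing acc with
  | nil => exact h
  | cons a l ih => exact ih (nubStep_sub h)

theorem mem_foldl {l acc : List σ} {s : σ} (h : s ∈ l.foldl (nubStep eqv m) acc) :
    s ∈ acc ∨ s ∈ l := by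
  induction l generalizing acc with
  | nil => exact Or.inl h
  | cons a l ih =>
    rcases ih h with h | h
    · unfold nubStep at h
      split at h
      · exact Or.inl h
      · rcases List.mem_cons.1 h with h | h
        · exact Or.inr (h ▸ List.mem_cons_self)
        · exact Or.inl h
    · exact Or.inr (List.mem_cons_of_mem _ h)

theorem mem_of_mem_nubCut {l : List σ} {s : σ} (h : s ∈ nubCut eqv m l) : s ∈ l := by
  rw [nubCut_eq] at h
  rcases mem_foldl h with h | h
  · simp at h
  · exact h

theorem foldl_length {l acc : List σ} (h : acc.length ≤ m) :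
    (l.foldl (nubStep eqv m) acc).length ≤ m := by
  induction l generalizing acc with
  | nil => exact h
  | cons a l ih =>
    apply ih
    unfold nubStep
    split
    · exact h
    · rename_i h1
      simp only [Bool.or_eq_true, decide_eq_true_eq, not_or, not_le] at h1
      simp only [List.length_cons]
      omega

theorem nubCut_length_le {l : List σ} : (nubCut eqv m l).length ≤ m :=
  foldl_length (Nat.zero_le _)

theorem foldl_pairwise {l acc : List σ} (h : acc.Pairwise (fun a b => eqv b a = false)) :
    (l.foldl (nubStep eqv m) acc).Pairwise (fun a b => eqv b a = false) := by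
  induction l generalizing acc with
  | nil => exact h
  | cons a l ih =>
    apply ih
    unfold nubStep
    split
    · exact h
    · rename_i h1
      simp only [Bool.or_eq_true, decide_eq_true_eq, not_or, List.any_eq_true, not_exists,
        not_and] at h1
      rw [List.pairwise_cons]
      refine ⟨fun b hb => ?_, h⟩
      have := h1.1 b hb
      simpa using this

theorem nubCut_complete (hr : ∀ s, eqv s s = true)
    {l : List σ}
    (hb : ∀ l' : List σ, (∀ s ∈ l', s ∈ l) → l'.Pairwise (fun a b => eqv b a = false) →
      l'.length ≤ m) {s : σ} (hs : s ∈ l) : ∃ t ∈ nubCut eqv m l, eqv t s = true := by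
  obtain ⟨l1, l2, rfl⟩ := List.append_of_mem hs
  rw [nubCut_eq, List.foldl_append, List.foldl_cons]
  set acc := l1.foldl (nubStep eqv m) [] with hacc
  have hp : acc.Pairwise (fun a b => eqv b a = false) := foldl_pairwise List.Pairwise.nil
  have hm : ∀ t ∈ acc, t ∈ l1 := fun t ht => by
    rcases mem_foldl ht with h | h
    · simp at h
    · exact h
  have key : ∃ t ∈ nubStep eqv m acc s, eqv t s = true := by
    unfold nubStep
    split
    · rename_i h1
      simp only [Bool.or_eq_true, decide_eq_true_eq, List.any_eq_true] at h1
      by_cases h2 : ∃ t ∈ acc, eqv t s = true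
      · exact h2
      · exfalso
        have h3 : m ≤ acc.length := h1.resolve_left h2
        push Not at h2
        have h4 := hb (s :: acc) (by
          intro t ht
          rcases List.mem_cons.1 ht with rfl | ht
          · exact hs
          · exact List.mem_append_left _ (hm t ht)) (by
          rw [List.pairwise_cons]
          refine ⟨fun b hb' => ?_, hp⟩
          have := h2 b hb'
          simpa using this)
        simp only [List.length_cons] at h4
        omega
    · exact ⟨s, List.mem_cons_self, hr s⟩
  obtain ⟨t, ht, hts⟩ := key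
  exact ⟨t, foldl_sub ht, hts⟩

end Nub

end Pool.Agent.H333R2.Col
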