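import Pool.Agent.H333R2.Col.Notions
import Pool.Agent.H333R2.Col.NC
import Pool.Agent.H333R2.Col.CT

/-!
# Module MG: merging tables
-/

namespace Pool.Agent.H333R2.Col


section Sig

variable {adj : ℕ → ℕ → Bool} {n : ℕ}

theorem mg_mem_sig {B S : List ℕ} {w : ℕ} :
    w ∈ sig adj n B S ↔ w < n ∧ w ∉ B ∧ ∃ v ∈ S, adj v w = true := by
  unfold sig
  rw [List.mem_filter, List.mem_range, Bool.and_eq_true, List.any_eq_true]
  simp

theorem mg_mem_uni {S S' : List ℕ} {w : ℕ} :
    w ∈ uni n S S' ↔ w < n ∧ (w ∈ S ∨ w ∈ S') := by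
  unfold uni
  rw [List.mem_filter, List.mem_range]
  simp

theorem mg_sameSig {B : List ℕ} {L L' : List (List ℕ)} :
    sameSig adj n B L L' = true ↔ (L.map (sig adj n B)).Perm (L'.map (sig adj n B)) := by
  unfold sameSig
  exact permB_iff

theorem mg_noEdge {S S' : List ℕ} :
    noEdge adj S S' = true ↔ ∀ u ∈ S, ∀ v ∈ S', adj u v = false := by
  unfold noEdge
  simp

theorem mg_sameKey {B B1 B2 : List ℕ} {s s' : MState} :
    sameKey adj n B B1 B2 s s' = true ↔
      (s.1.map (sig adj n B1)).Perm (s'.1.map (sig adj n B1)) ∧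
      (s.2.1.map (sig adj n B2)).Perm (s'.2.1.map (sig adj n B2)) ∧
      (s.2.2.map (sig adj n B)).Perm (s'.2.2.map (sig adj n B)) := by
  unfold sameKey
  rw [Bool.and_eq_true, Bool.and_eq_true, mg_sameSig, mg_sameSig, mg_sameSig]

/-- sets with the same signature -/
theorem mg_sig_ext {B S S' : List ℕ}
    (h : ∀ w < n, w ∉ B → ((∃ v ∈ S, adj v w = true) ↔ ∃ v ∈ S', adj v w = true)) :
    sig adj n B S = sig adj n B S' := by
  unfold sig
  apply List.filter_congr
  intro w hw
  rw [List.mem_range] at hw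
  by_cases hB : w ∈ B
  · simp [hB]
  · have h1 := h w hw hB
    have h2 : (S.any fun v => adj v w) = (S'.any fun v => adj v w) := by
      rw [Bool.eq_iff_iff, List.any_eq_true, List.any_eq_true]
      exact h1
    rw [h2]

end Sig

/-- The invariant of the merging process. -/
structure MGInv (adj : ℕ → ℕ → Bool) (q i : ℕ) (B B1 B2 : List ℕ) (s : MState) : Prop where
  l1 : s.1.length + i = q
  l2 : s.2.1.length + i = q
  l3 : s.2.2.length = i
  c1 : ∀ S ∈ s.1, (∀ v ∈ S, v ∈ B1) ∧ Indep adj S
  c2 : ∀ S ∈ s.2.1, (∀ v ∈ S, v ∈ B2) ∧ Indep adj S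
  c3 : ∀ S ∈ s.2.2, (∀ v ∈ S, v ∈ B) ∧ Indep adj S
  cov : ∀ v ∈ B, (∃ S ∈ s.1, v ∈ S) ∨ (∃ S ∈ s.2.1, v ∈ S) ∨ ∃ S ∈ s.2.2, v ∈ S

section Main

variable {adj : ℕ → ℕ → Bool} {n t m : ℕ} {Q B B1 B2 : List ℕ}
  {T1 T2 : List (List (List ℕ))}

theorem mg_init (hc : ∀ u, u ∈ B ↔ u ∈ B1 ∨ u ∈ B2)
    (h1 : Rep adj n Q.length B1 T1) (h2 : Rep adj n Q.length B2 T2) {s : MState}
    (hs : s ∈ T1.flatMap fun L1 => T2.map fun L2 => ((L1, L2, []) : MState)) :
    MGInv adj Q.length 0 B B1 B2 s := by
  rw [List.mem_flatMap] at hs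
  obtain ⟨L1, hL1, hs⟩ := hs
  rw [List.mem_map] at hs
  obtain ⟨L2, hL2, rfl⟩ := hs
  obtain ⟨a1, b1, c1⟩ := h1.1 L1 hL1
  obtain ⟨a2, b2, c2⟩ := h2.1 L2 hL2
  refine ⟨by simpa using a1, by simpa using a2, rfl, b1, b2, ?_, ?_⟩
  · intro S hS
    exact absurd hS (by simp)
  · intro v hv
    rcases (hc v).1 hv with h | h
    · exact Or.inl (c1 v h)
    · exact Or.inr (Or.inl (c2 v h))

theorem mg_next (hadj : Good adj) (hn : ∀ v ∈ B, v < n) (hc : ∀ u, u ∈ B ↔ u ∈ B1 ∨ u ∈ B2)
    {q i : ℕ} {s s' : MState}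
    (hs : MGInv adj q i B B1 B2 s) (h : s' ∈ mergeNext adj n s) :
    MGInv adj q (i + 1) B B1 B2 s' := by
  unfold mergeNext at h
  rw [List.mem_flatMap] at h
  obtain ⟨a, ha, h⟩ := h
  rw [List.mem_map] at h
  obtain ⟨b, hb, rfl⟩ := h
  rw [List.mem_filter] at hb
  obtain ⟨hb, hE⟩ := hb
  rw [mg_noEdge] at hE
  have pa := mem_picks ha
  have pb := mem_picks hb
  have ea := hs.c1 a.1 (pa.mem_iff.2 List.mem_cons_self)
  have eb := hs.c2 b.1 (pb.mem_iff.2 List.mem_cons_self)
  have la := pa.length_eq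
  have lb := pb.length_eq
  rw [List.length_cons] at la lb
  have l1 := hs.l1
  have l2 := hs.l2
  refine ⟨?_, ?_, ?_, ?_, ?_, ?_, ?_⟩
  · dsimp only
    omega
  · dsimp only
    omega
  · dsimp only
    rw [List.length_cons, hs.l3]
  · intro S hS
    exact hs.c1 S (pa.mem_iff.2 (List.mem_cons_of_mem _ hS))
  · intro S hS
    exact hs.c2 S (pb.mem_iff.2 (List.mem_cons_of_mem _ hS))
  · intro S hS
    rcases List.mem_cons.1 hS with rfl | hS
    · refine ⟨?_, ?_⟩
      · intro v hv
        rw [mg_mem_uni] at hv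
        rcases hv.2 with h | h
        · exact (hc v).2 (Or.inl (ea.1 v h))
        · exact (hc v).2 (Or.inr (eb.1 v h))
      · intro u hu v hv
        rw [mg_mem_uni] at hu hv
        rcases hu.2 with h | h <;> rcases hv.2 with h' | h'
        · exact ea.2 u h v h'
        · exact hE u h v h'
        · rw [hadj.symm]
          exact hE v h' u h
        · exact eb.2 u h v h'
    · exact hs.c3 S hS
  · intro v hv
    have key : ∀ S, (S = a.1 ∨ S = b.1) → v ∈ S → v ∈ uni n a.1 b.1 := by
      intro S hS hvS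
      rw [mg_mem_uni]
      refine ⟨hn v hv, ?_⟩
      rcases hS with rfl | rfl
      · exact Or.inl hvS
      · exact Or.inr hvS
    rcases hs.cov v hv with ⟨S, hS, hvS⟩ | ⟨S, hS, hvS⟩ | ⟨S, hS, hvS⟩
    · rcases List.mem_cons.1 (pa.mem_iff.1 hS) with h | h
      · exact Or.inr (Or.inr ⟨_, List.mem_cons_self, key S (Or.inl h) hvS⟩)
      · exact Or.inl ⟨S, h, hvS⟩
    · rcases List.mem_cons.1 (pb.mem_iff.1 hS) with h | h
      · exact Or.inr (Or.inr ⟨_, List.mem_cons_self, key S (Or.inr h) hvS⟩)
      · exact Or.inr (Or.inl ⟨S, h, hvS⟩)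
    · exact Or.inr (Or.inr ⟨S, List.mem_cons_of_mem _ hS, hvS⟩)

theorem mg_sound (hadj : Good adj) (hn : ∀ v ∈ B, v < n) (hc : ∀ u, u ∈ B ↔ u ∈ B1 ∨ u ∈ B2)
    (h1 : Rep adj n Q.length B1 T1) (h2 : Rep adj n Q.length B2 T2) (i : ℕ) :
    ∀ s ∈ (mergeRound adj n m B B1 B2)^[i] (mergeInit adj n m B B1 B2 T1 T2),
      MGInv adj Q.length i B B1 B2 s := by
  induction i with
  | zero =>
    intro s hs
    exact mg_init hc h1 h2 (mem_of_mem_nubCut hs)
  | succ i ih =>
    intro s hs
    rw [Function.iterate_succ_apply'] at hs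
    have h3 := mem_of_mem_nubCut hs
    rw [List.mem_flatMap] at h3
    obtain ⟨s0, hs0, hs1⟩ := h3
    exact mg_next hadj hn hc (ih s0 hs0) hs1

theorem mg_restrict {L : List (List ℕ)} {q : ℕ} (hL : IsCov adj q B L)
    (h : ∀ u ∈ B1, u ∈ B) :
    IsCov adj q B1 (L.map (fun S => S.filter (fun v => decide (v ∈ B1)))) := by
  obtain ⟨a, b, c⟩ := hL
  refine ⟨by rw [List.length_map, a], ?_, ?_⟩
  · intro S hS
    rw [List.mem_map] at hS
    obtain ⟨S', hS', rfl⟩ := hS
    refine ⟨?_, ?_⟩
    · intro v hv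
      rw [List.mem_filter] at hv
      exact of_decide_eq_true hv.2
    · intro u hu v hv
      rw [List.mem_filter] at hu hv
      exact (b S' hS').2 u hu.1 v hv.1
  · intro v hv
    obtain ⟨S, hS, hvS⟩ := c v (h v hv)
    refine ⟨_, List.mem_map_of_mem hS, ?_⟩
    rw [List.mem_filter]
    exact ⟨hvS, decide_eq_true hv⟩

theorem mg_reach (hadj : Good adj) (hn : ∀ v ∈ B, v < n)
    (hB : rankLe adj n t B = true) (hB1 : rankLe adj n t B1 = true)
    (hB2 : rankLe adj n t B2 = true) (hc : ∀ u, u ∈ B ↔ u ∈ B1 ∨ u ∈ B2)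
    (hd : ∀ u ∈ B1, u ∉ B2) (hm : (Q.length + 1) ^ expB t ≤ m)
    (h1 : Rep adj n Q.length B1 T1) (h2 : Rep adj n Q.length B2 T2)
    {L : List (List ℕ)} (hL : IsCov adj Q.length B L) (i : ℕ) (hi : i ≤ Q.length) :
    ∃ s ∈ (mergeRound adj n m B B1 B2)^[i] (mergeInit adj n m B B1 B2 T1 T2),
      (s.1.map (sig adj n B1)).Perm ((L.drop i).map
        (fun S => sig adj n B1 (S.filter (fun v => decide (v ∈ B1))))) ∧
      (s.2.1.map (sig adj n B2)).Perm ((L.drop i).map
        (fun S => sig adj n B2 (S.filter (fun v => decide (v ∈ B2))))) ∧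
      (s.2.2.map (sig adj n B)).Perm ((L.take i).map (sig adj n B)) := by
  -- completeness of `nubCut`
  have hnub : ∀ (j : ℕ) (l : List MState), (∀ s ∈ l, MGInv adj Q.length j B B1 B2 s) →
      ∀ s ∈ l, ∃ t ∈ nubCut (sameKey adj n B B1 B2) m l, sameKey adj n B B1 B2 t s = true := by
    intro j l hl s hs
    refine nubCut_complete (fun s => mg_sameKey.2 ⟨List.Perm.refl _, List.Perm.refl _,
      List.Perm.refl _⟩) ?_ hs
    intro l' hl' hp
    refine (states_card hB hB1 hB2 l' ?_ ?_ ?_ hp).trans hm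
    · intro s hs
      have := hl s (hl' s hs)
      exact ⟨by have := this.l1; omega, fun S hS => (this.c1 S hS).1⟩
    · intro s hs
      have := hl s (hl' s hs)
      exact ⟨by have := this.l2; omega, fun S hS => (this.c2 S hS).1⟩
    · intro s hs
      have := hl s (hl' s hs)
      exact ⟨by have h1 := this.l1; have h2 := this.l3; omega, fun S hS => (this.c3 S hS).1⟩
  induction i with
  | zero =>
    obtain ⟨L1, hL1, e1⟩ := h1.2 _ (mg_restrict hL (B1 := B1) (fun u hu => (hc u).2 (Or.inl hu)))
    obtain ⟨L2, hL2, e2⟩ := h2.2 _ (mg_restrict hL (B1 := B2) (fun u hu => (hc u).2 (Or.inr hu)))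
    rw [mg_sameSig, List.map_map] at e1 e2
    have hmem : ((L1, L2, []) : MState) ∈
        T1.flatMap fun L1 => T2.map fun L2 => ((L1, L2, []) : MState) := by
      rw [List.mem_flatMap]
      exact ⟨L1, hL1, List.mem_map_of_mem hL2⟩
    obtain ⟨s, hs, hs'⟩ := hnub 0 _ (fun s hs => mg_init hc h1 h2 hs) _ hmem
    rw [mg_sameKey] at hs'
    refine ⟨s, hs, ?_, ?_, ?_⟩
    · exact hs'.1.trans (by rw [List.drop_zero]; exact e1)
    · exact hs'.2.1.trans (by rw [List.drop_zero]; exact e2)
    · simpa using hs'.2.2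
  | succ i ih =>
    obtain ⟨s, hs, e1, e2, e3⟩ := ih (by omega)
    have hinv := mg_sound (m := m) hadj hn hc h1 h2 i s hs
    have hlen : i < L.length := by rw [hL.1]; omega
    set Si := L[i] with hSi
    have hSiL : Si ∈ L := List.getElem_mem hlen
    have hdrop : L.drop i = Si :: L.drop (i + 1) := List.drop_eq_getElem_cons hlen
    have htake : L.take (i + 1) = L.take i ++ [Si] := by
      rw [List.take_succ_eq_append_getElem hlen]
    rw [hdrop, List.map_cons] at e1 e2
    -- the two sets
    obtain ⟨S1, hS1, q1⟩ := List.mem_map.1 (e1.mem_iff.2 List.mem_cons_self)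
    obtain ⟨S2, hS2, q2⟩ := List.mem_map.1 (e2.mem_iff.2 List.mem_cons_self)
    obtain ⟨a, ha, ha1, pa⟩ := exists_pick hS1
    obtain ⟨b, hb, hb1, pb⟩ := exists_pick hS2
    have i1 := hinv.c1 S1 hS1
    have i2 := hinv.c2 S2 hS2
    have iS := hL.2.1 Si hSiL
    have hB1n : ∀ v ∈ B1, v < n := fun v hv => hn v ((hc v).2 (Or.inl hv))
    have hB2n : ∀ v ∈ B2, v < n := fun v hv => hn v ((hc v).2 (Or.inr hv))
    have hE : noEdge adj S1 S2 = true := by
      rw [mg_noEdge]
      intro u hu v hv
      by_contra hne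
      have huv : adj u v = true := by
        cases h : adj u v
        · exact absurd h hne
        · rfl
      have hv2 := i2.1 v hv
      have hv1 : v ∉ B1 := fun h => hd v h hv2
      have m1 : v ∈ sig adj n B1 S1 := mg_mem_sig.2 ⟨hB2n v hv2, hv1, u, hu, huv⟩
      rw [q1, mg_mem_sig] at m1
      obtain ⟨_, _, u', hu', huv'⟩ := m1
      rw [List.mem_filter] at hu'
      have hu1 : u' ∈ B1 := of_decide_eq_true hu'.2
      have m2 : u' ∈ sig adj n B2 S2 := mg_mem_sig.2 ⟨hB1n u' hu1, hd u' hu1, v, hv, by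
        rw [hadj.symm]; exact huv'⟩
      rw [q2, mg_mem_sig] at m2
      obtain ⟨_, _, v', hv', hvu'⟩ := m2
      rw [List.mem_filter] at hv'
      have := iS.2 v' hv'.1 u' hu'.1
      rw [hvu'] at this
      exact absurd this (by simp)
    have hsig : sig adj n B (uni n S1 S2) = sig adj n B Si := by
      apply mg_sig_ext
      intro w hw hwB
      have hw1 : w ∉ B1 := fun h => hwB ((hc w).2 (Or.inl h))
      have hw2 : w ∉ B2 := fun h => hwB ((hc w).2 (Or.inr h))
      have k1 : (∃ v ∈ S1, adj v w = true) ↔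
          ∃ v ∈ Si.filter (fun v => decide (v ∈ B1)), adj v w = true := by
        constructor
        · intro h
          have : w ∈ sig adj n B1 S1 := mg_mem_sig.2 ⟨hw, hw1, h⟩
          rw [q1] at this
          exact (mg_mem_sig.1 this).2.2
        · intro h
          have : w ∈ sig adj n B1 (Si.filter (fun v => decide (v ∈ B1))) :=
            mg_mem_sig.2 ⟨hw, hw1, h⟩
          rw [← q1] at this
          exact (mg_mem_sig.1 this).2.2
      have k2 : (∃ v ∈ S2, adj v w = true) ↔
          ∃ v ∈ Si.filter (fun v => decide (v ∈ B2)), adj v w = true := by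
        constructor
        · intro h
          have : w ∈ sig adj n B2 S2 := mg_mem_sig.2 ⟨hw, hw2, h⟩
          rw [q2] at this
          exact (mg_mem_sig.1 this).2.2
        · intro h
          have : w ∈ sig adj n B2 (Si.filter (fun v => decide (v ∈ B2))) :=
            mg_mem_sig.2 ⟨hw, hw2, h⟩
          rw [← q2] at this
          exact (mg_mem_sig.1 this).2.2
      constructor
      · rintro ⟨v, hv, hvw⟩
        rw [mg_mem_uni] at hv
        rcases hv.2 with h | h
        · obtain ⟨v', hv', hw'⟩ := k1.1 ⟨v, h, hvw⟩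
          rw [List.mem_filter] at hv'
          exact ⟨v', hv'.1, hw'⟩
        · obtain ⟨v', hv', hw'⟩ := k2.1 ⟨v, h, hvw⟩
          rw [List.mem_filter] at hv'
          exact ⟨v', hv'.1, hw'⟩
      · rintro ⟨v, hv, hvw⟩
        rcases (hc v).1 (iS.1 v hv) with h | h
        · obtain ⟨v', hv', hw'⟩ := k1.2 ⟨v, List.mem_filter.2 ⟨hv, decide_eq_true h⟩, hvw⟩
          exact ⟨v', mg_mem_uni.2 ⟨hB1n v' (i1.1 v' hv'), Or.inl hv'⟩, hw'⟩
        · obtain ⟨v', hv', hw'⟩ := k2.2 ⟨v, List.mem_filter.2 ⟨hv, decide_eq_true h⟩, hvw⟩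
          exact ⟨v', mg_mem_uni.2 ⟨hB2n v' (i2.1 v' hv'), Or.inr hv'⟩, hw'⟩
    -- the next state
    have hmem : ((a.2, b.2, uni n a.1 b.1 :: s.2.2) : MState) ∈
        ((mergeRound adj n m B B1 B2)^[i] (mergeInit adj n m B B1 B2 T1 T2)).flatMap
          (mergeNext adj n) := by
      rw [List.mem_flatMap]
      refine ⟨s, hs, ?_⟩
      unfold mergeNext
      rw [List.mem_flatMap]
      refine ⟨a, ha, ?_⟩
      rw [List.mem_map]
      refine ⟨b, ?_, rfl⟩
      rw [List.mem_filter]
      exact ⟨hb, by rw [ha1, hb1]; exact hE⟩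
    obtain ⟨s', hs', hk⟩ := hnub (i + 1) _ (fun r hr => by
      rw [List.mem_flatMap] at hr
      obtain ⟨r0, hr0, hr1⟩ := hr
      exact mg_next hadj hn hc (mg_sound (m := m) hadj hn hc h1 h2 i r0 hr0) hr1) _ hmem
    rw [mg_sameKey] at hk
    refine ⟨s', ?_, ?_, ?_, ?_⟩
    · rw [Function.iterate_succ_apply']
      exact hs'
    · refine hk.1.trans ?_
      have p1 := (pa.map (sig adj n B1)).symm.trans e1
      rw [List.map_cons, q1] at p1
      exact p1.cons_inv
    · refine hk.2.1.trans ?_
      have p1 := (pb.map (sig adj n B2)).symm.trans e2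
      rw [List.map_cons, q2] at p1
      exact p1.cons_inv
    · refine hk.2.2.trans ?_
      rw [htake, List.map_append, List.map_cons, List.map_cons, List.map_nil, ha1, hb1, hsig]
      exact (List.Perm.cons _ e3).trans (List.perm_append_singleton _ _).symm

theorem rep_merge {adj : ℕ → ℕ → Bool} (hadj : Good adj) {n t m : ℕ} {Q B B1 B2 : List ℕ}
    {T1 T2 : List (List (List ℕ))} (hn : ∀ v ∈ B, v < n)
    (hB : rankLe adj n t B = true) (hB1 : rankLe adj n t B1 = true)
    (hB2 : rankLe adj n t B2 = true) (hc : ∀ u, u ∈ B ↔ u ∈ B1 ∨ u ∈ B2)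
    (hd : ∀ u ∈ B1, u ∉ B2) (hm : (Q.length + 1) ^ expB t ≤ m)
    (h1 : Rep adj n Q.length B1 T1) (h2 : Rep adj n Q.length B2 T2) :
    Rep adj n Q.length B (merge adj n m Q B B1 B2 T1 T2) := by
  constructor
  · intro L hL
    unfold merge at hL
    rw [List.mem_map] at hL
    obtain ⟨s, hs, rfl⟩ := hL
    have h := mg_sound hadj hn hc h1 h2 Q.length s hs
    refine ⟨h.l3, h.c3, ?_⟩
    intro v hv
    have l1 := h.l1
    have l2 := h.l2
    have n1 : s.1 = [] := List.length_eq_zero_iff.1 (by omega)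
    have n2 : s.2.1 = [] := List.length_eq_zero_iff.1 (by omega)
    rcases h.cov v hv with ⟨S, hS, _⟩ | ⟨S, hS, _⟩ | h
    · rw [n1] at hS
      exact absurd hS (by simp)
    · rw [n2] at hS
      exact absurd hS (by simp)
    · exact h
  · intro L hL
    obtain ⟨s, hs, _, _, e3⟩ := mg_reach (m := m) hadj hn hB hB1 hB2 hc hd hm h1 h2 hL Q.length le_rfl
    refine ⟨s.2.2, ?_, ?_⟩
    · unfold merge
      exact List.mem_map_of_mem hs
    · rw [mg_sameSig]
      rwa [List.take_of_length_le (by rw [hL.1])] at e3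

theorem mg_boolperm {l l' : List Bool} (hl : l.length = l'.length)
    (hc : l.count true = l'.count true) : l.Perm l' := by
  rw [List.perm_iff_count]
  intro b
  cases b
  · have h1 := List.count_true_add_count_false (l := l)
    have h2 := List.count_true_add_count_false (l := l')
    omega
  · exact hc

theorem mg_count_range (q j : ℕ) (hj : j < q) :
    ((List.range q).map (fun i => decide (i ≤ j))).count true = j + 1 := by
  rw [List.count_eq_length_filter, List.filter_map, List.length_map]
  have h1 : (List.range q).filter ((fun x => x == true) ∘ fun i => decide (i ≤ j)) =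
      (List.range q).filter (fun i => decide (i < j + 1)) := by
    apply List.filter_congr
    intro x _
    simp
  rw [h1]
  have h3 : ((List.range q).filter (fun i => decide (i < j + 1))).length =
      ((Finset.range q).filter (fun i => i < j + 1)).card := rfl
  rw [h3]
  have h4 : (Finset.range q).filter (fun i => i < j + 1) = Finset.range (j + 1) := by
    ext x
    simp only [Finset.mem_filter, Finset.mem_range]
    omega
  rw [h4, Finset.card_range]

theorem rep_base {adj : ℕ → ℕ → Bool} (hadj : Good adj) {n q v : ℕ} :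
    Rep adj n q [v] (base (List.range q) [v]) := by
  constructor
  · intro L hL
    unfold base at hL
    rw [List.mem_map] at hL
    obtain ⟨j, hj, rfl⟩ := hL
    rw [List.mem_range] at hj
    refine ⟨by simp, ?_, ?_⟩
    · intro S hS
      rw [List.mem_map] at hS
      obtain ⟨i, _, rfl⟩ := hS
      split_ifs
      · refine ⟨fun u hu => hu, ?_⟩
        intro u hu w hw
        rw [List.mem_singleton] at hu hw
        rw [hu, hw]
        exact hadj.irrefl v
      · refine ⟨fun u hu => absurd hu (by simp), ?_⟩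
        intro u hu
        exact absurd hu (by simp)
    · intro u hu
      refine ⟨[v], ?_, hu⟩
      rw [List.mem_map]
      exact ⟨0, List.mem_range.2 (by omega), by simp⟩
  · intro L hL
    obtain ⟨hlen, hsub, hcov⟩ := hL
    set c := (L.map (fun S => decide (v ∈ S))).count true with hc
    have hc1 : 1 ≤ c := by
      obtain ⟨S, hS, hvS⟩ := hcov v (by simp)
      rw [hc, Nat.one_le_iff_ne_zero, Ne, List.count_eq_zero, not_not]
      rw [List.mem_map]
      exact ⟨S, hS, decide_eq_true hvS⟩
    have hcq : c ≤ q := by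
      have := List.count_le_length (a := true) (l := L.map (fun S => decide (v ∈ S)))
      rw [List.length_map, hlen] at this
      exact this
    refine ⟨(List.range q).map fun i => if i ≤ c - 1 then [v] else [], ?_, ?_⟩
    · unfold base
      rw [List.mem_map]
      exact ⟨c - 1, List.mem_range.2 (by omega), rfl⟩
    · rw [mg_sameSig]
      have e1 : ((List.range q).map fun i => if i ≤ c - 1 then [v] else []).map (sig adj n [v]) =
          ((List.range q).map (fun i => decide (i ≤ c - 1))).map
            (fun b => if b = true then sig adj n [v] [v] else sig adj n [v] []) := by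
        rw [List.map_map, List.map_map]
        apply List.map_congr_left
        intro i _
        simp only [Function.comp_apply, decide_eq_true_eq]
        split_ifs <;> rfl
      have e2 : L.map (sig adj n [v]) = (L.map (fun S => decide (v ∈ S))).map
            (fun b => if b = true then sig adj n [v] [v] else sig adj n [v] []) := by
        rw [List.map_map]
        apply List.map_congr_left
        intro S hS
        simp only [Function.comp_apply, decide_eq_true_eq]
        have hS' := (hsub S hS).1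
        split_ifs with h
        · apply mg_sig_ext
          intro w _ _
          constructor
          · rintro ⟨u, hu, h'⟩
            exact ⟨u, hS' u hu, h'⟩
          · rintro ⟨u, hu, h'⟩
            rw [List.mem_singleton] at hu
            exact ⟨v, h, by rw [← hu]; exact h'⟩
        · have : S = [] := by
            rw [List.eq_nil_iff_forall_not_mem]
            intro u hu
            have := hS' u hu
            rw [List.mem_singleton] at this
            rw [this] at hu
            exact h hu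
          rw [this]
      rw [e1, e2]
      apply List.Perm.map
      apply mg_boolperm
      · rw [List.length_map, List.length_map, List.length_range, hlen]
      · rw [mg_count_range q (c - 1) (by omega), ← hc]
        omega

end Main

end Pool.Agent.H333R2.Col
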