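import Pool.Agent.H333R2.Col.PT
import Pool.Agent.H333R2.Col.MG

/-!
# Correctness of the algorithm
-/

namespace Pool.Agent.H333R2.Col

open Pool.Agent.H622R2

theorem fn_good (M : List (List Bool)) : Good (adjB M) := by
  refine ⟨fun u v => ?_, fun v => ?_⟩
  · unfold adjB
    rw [Bool.or_comm]
    congr 2
    exact decide_eq_decide.mpr eq_comm
  · simp [adjB]

theorem fn_gr (M : List (List Bool)) : gr (adjB M) M.length = matGraph M := by
  ext i j
  simp only [gr, matGraph, adjB]
  constructor
  · rintro ⟨h, h'⟩
    refine ⟨h, ?_⟩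
    rcases h' with h' | h'
    · simp only [Bool.and_eq_true, Bool.or_eq_true] at h'
      exact h'.2
    · simp only [Bool.and_eq_true, Bool.or_eq_true] at h'
      exact h'.2.symm
  · rintro ⟨h, h'⟩
    refine ⟨h, Or.inl ?_⟩
    simp only [Bool.and_eq_true, Bool.or_eq_true, Bool.not_eq_true', decide_eq_false_iff_not]
    exact ⟨fun he => h (Fin.ext he), h'⟩

theorem fn_below {n r : ℕ} (h : r ≤ n) : below n r = List.range r := by
  obtain ⟨d, rfl⟩ := Nat.exists_eq_add_of_le h
  unfold below
  rw [List.range_add, List.filter_append]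
  have h1 : (List.range r).filter (fun i => decide (i < r)) = List.range r := by
    rw [List.filter_eq_self]
    intro a ha
    simpa using List.mem_range.mp ha
  have h2 : ((List.range d).map (fun x => r + x)).filter (fun i => decide (i < r)) = [] := by
    rw [List.filter_eq_nil_iff]
    intro a ha
    obtain ⟨x, -, rfl⟩ := List.mem_map.mp ha
    simp
  rw [h1, h2, List.append_nil]

/-- The invariant. -/
def FP (adj : ℕ → ℕ → Bool) (n k t q r : ℕ) (tab : List (List (List (List ℕ)))) : Prop :=
  ∀ v < n, Rep adj n q (part adj n k t (List.range r) v) (tab.getD v [])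

theorem fn_getD {α : Type} {n v : ℕ} (hv : v < n) (f : ℕ → List α) :
    ((List.range n).map f).getD v [] = f v := by
  rw [List.getD_eq_getElem?_getD, List.getElem?_map, List.getElem?_range hv]
  rfl

theorem fn_step {adj : ℕ → ℕ → Bool} {n k q m : ℕ} (hadj : Good adj) (hk : 1 ≤ k)
    (hs : HasSplits k (gr adj n)) (hm : (q + 1) ^ expB (6 * k) ≤ m) {r : ℕ} (hr : r < n)
    {tab : List (List (List (List ℕ)))} (h : FP adj n k (6 * k) q (r + 1) tab) :
    FP adj n k (6 * k) q r
      ((List.range n).map fun v => tabAt adj n k (6 * k) m (List.range q) tab r v) := by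
  intro v hv
  rw [fn_getD hv]
  unfold tabAt
  rw [fn_below hr.le]
  cases hsp : split adj n k (6 * k) (part adj n k (6 * k) (List.range r) v) with
  | none =>
    rw [part_leaf hadj hk hs hv (Or.inl hsp)]
    exact rep_base hadj
  | some p =>
    obtain ⟨h1, h2, hc1, hc2, hc, hd⟩ :=
      part_split (l := List.range r) (l' := List.range (r + 1)) (by simp) hv hsp
    obtain ⟨-, hp1, hp2, hr1, hr2⟩ := split_spec hsp
    obtain ⟨hcan, hvm, hrk, -⟩ := part_basic (adj := adj) (n := n) (k := k) (t := 6 * k)
      (List.range r) hv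
    have hh1 : p.1.head?.getD 0 ∈ p.1 := by
      cases hp : p.1 with
      | nil => exact absurd hp hp1
      | cons a l => simp
    have hh2 : p.2.head?.getD 0 ∈ p.2 := by
      cases hp : p.2 with
      | nil => exact absurd hp hp2
      | cons a l => simp
    have hR1 := h _ (h1 _ hh1).1
    have hR2 := h _ (h2 _ hh2).1
    rw [(h1 _ hh1).2] at hR1
    rw [(h2 _ hh2).2] at hR2
    have hlen : (List.range q).length = q := List.length_range
    have := rep_merge hadj (n := n) (t := 6 * k) (m := m) (Q := List.range q)
      (B := part adj n k (6 * k) (List.range r) v) (B1 := p.1) (B2 := p.2)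
      (T1 := tab.getD (p.1.head?.getD 0) []) (T2 := tab.getD (p.2.head?.getD 0) [])
      (fun u hu => List.mem_range.mp (hcan.subset hu)) hrk hr1 hr2 hc hd
      (by rw [hlen]; exact hm) (by rw [hlen]; exact hR1) (by rw [hlen]; exact hR2)
    rw [hlen] at this
    exact this

theorem fn_fold {adj : ℕ → ℕ → Bool} {n k q m : ℕ} (hadj : Good adj) (hk : 1 ≤ k)
    (hs : HasSplits k (gr adj n)) (hm : (q + 1) ^ expB (6 * k) ≤ m) (i : ℕ) :
    i ≤ n → ∀ tab, FP adj n k (6 * k) q i tab → FP adj n k (6 * k) q 0
      ((List.range i).reverse.foldl (fun tab r => (List.range n).map fun v =>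
        tabAt adj n k (6 * k) m (List.range q) tab r v) tab) := by
  induction i with
  | zero =>
    intro _ tab h
    simpa using h
  | succ i ih =>
    intro hi tab h
    rw [List.range_succ, List.reverse_append, List.reverse_singleton, List.singleton_append,
      List.foldl_cons]
    exact ih (by omega) _ (fn_step hadj hk hs hm (by omega) h)

theorem fn_cov {adj : ℕ → ℕ → Bool} (hadj : Good adj) {n q : ℕ} :
    (∃ L, IsCov adj q (List.range n) L) ↔ (gr adj n).Colorable q := by
  classical
  constructor
  · rintro ⟨L, hL, hS, hc⟩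
    have : ∀ v : Fin n, ∃ j : Fin q, (v : ℕ) ∈ L.getD j [] := by
      intro v
      obtain ⟨S, hSL, hv⟩ := hc v (List.mem_range.mpr v.2)
      obtain ⟨i, hi, rfl⟩ := List.mem_iff_getElem.mp hSL
      refine ⟨⟨i, hL ▸ hi⟩, ?_⟩
      rw [List.getD_eq_getElem?_getD]
      simpa [List.getElem?_eq_getElem hi] using hv
    choose f hf using this
    refine ⟨SimpleGraph.Coloring.mk f ?_⟩
    intro u v huv he
    have hmem : L.getD (f v) [] ∈ L := by
      have hi : (f v : ℕ) < L.length := hL ▸ (f v).2
      rw [List.getD_eq_getElem?_getD, List.getElem?_eq_getElem hi]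
      exact List.getElem_mem hi
    have hu := hf u
    rw [he] at hu
    have h1 := (hS _ hmem).2 _ hu _ (hf v)
    have h2 := (hS _ hmem).2 _ (hf v) _ hu
    rcases huv.2 with h | h
    · rw [h1] at h; exact Bool.noConfusion h
    · rw [h2] at h; exact Bool.noConfusion h
  · rintro ⟨C⟩
    refine ⟨(List.range q).map (fun j => (List.range n).filter
      (fun v => decide (∃ h : v < n, ((C ⟨v, h⟩ : Fin q) : ℕ) = j))), by simp, ?_, ?_⟩
    · intro S hS
      obtain ⟨j, -, rfl⟩ := List.mem_map.mp hS
      refine ⟨fun v hv => (List.mem_filter.mp hv).1, ?_⟩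
      intro u hu v hv
      have hu' := (List.mem_filter.mp hu).2
      have hv' := (List.mem_filter.mp hv).2
      simp only [decide_eq_true_eq] at hu' hv'
      obtain ⟨hu1, hu2⟩ := hu'
      obtain ⟨hv1, hv2⟩ := hv'
      by_contra hne
      have hne' : adj u v = true := by
        cases h : adj u v with
        | true => rfl
        | false => exact absurd h hne
      have hAdj : (gr adj n).Adj ⟨u, hu1⟩ ⟨v, hv1⟩ := by
        refine ⟨?_, Or.inl hne'⟩
        intro he
        rw [Fin.mk.injEq] at he
        subst he
        rw [hadj.irrefl] at hne'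
        exact Bool.noConfusion hne'
      exact C.valid hAdj (Fin.ext (hu2.trans hv2.symm))
    · intro v hv
      have hv' := List.mem_range.mp hv
      refine ⟨_, List.mem_map.mpr ⟨(C ⟨v, hv'⟩ : Fin q), List.mem_range.mpr (C ⟨v, hv'⟩).2, rfl⟩,
        ?_⟩
      rw [List.mem_filter]
      refine ⟨hv, ?_⟩
      simp only [decide_eq_true_eq]
      exact ⟨hv', trivial⟩

theorem colTest_spec {k : ℕ} (hk : 1 ≤ k) (M : List (List Bool)) (q : ℕ)
    (hs : HasSplits k (matGraph M)) : colTest k (M, q) = true ↔ (matGraph M).Colorable q := by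
  unfold colTest
  simp only
  by_cases hq : M.length ≤ q
  · rw [if_pos hq]
    refine ⟨fun _ => ?_, fun _ => rfl⟩
    have := (matGraph M).colorable_of_fintype
    rw [Fintype.card_fin] at this
    exact this.mono hq
  · rw [if_neg hq]
    push Not at hq
    have hadj := fn_good M
    rw [← fn_gr M] at hs ⊢
    rw [← fn_cov hadj]
    rw [fn_below hq.le]
    have hm : (q + 1) ^ expB (6 * k) ≤ (M.length + 1) ^ expB (6 * k) :=
      Nat.pow_le_pow_left (by omega) _
    have h0 : FP (adjB M) M.length k (6 * k) q M.length ((List.range M.length).map fun v =>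
        base (List.range q) (part (adjB M) M.length k (6 * k) (List.range M.length) v)) := by
      intro v hv
      rw [fn_getD hv]
      rw [part_leaf hadj hk hs hv (Or.inr (by simp))]
      exact rep_base hadj
    have h1 := fn_fold hadj hk hs hm M.length le_rfl _ h0 0 (by omega)
    have hpart : part (adjB M) M.length k (6 * k) (List.range 0) 0 = List.range M.length := rfl
    rw [hpart] at h1
    change (!((tabs (adjB M) M.length k (6 * k) ((M.length + 1) ^ expB (6 * k))
      (List.range q)).getD 0 []).isEmpty) = true ↔ _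
    have h2 : Rep (adjB M) M.length q (List.range M.length) ((tabs (adjB M) M.length k (6 * k)
        ((M.length + 1) ^ expB (6 * k)) (List.range q)).getD 0 []) := h1
    generalize (tabs (adjB M) M.length k (6 * k) ((M.length + 1) ^ expB (6 * k))
      (List.range q)).getD 0 [] = T at h2
    constructor
    · intro h
      cases T with
      | nil => simp at h
      | cons L T => exact ⟨L, h2.1 L (by simp)⟩
    · rintro ⟨L, hL⟩
      obtain ⟨L', hL', -⟩ := h2.2 L hL
      cases T with
      | nil => simp at hL'
      | cons L T => simp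

end Pool.Agent.H333R2.Col
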