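import Pool.Agent.H333R2.Col.Notions

/-!
# Module HS: sources of the splitting property
-/

namespace Pool.Agent.H333R2.Col

open Pool.Agent.H622R2 Pool.Agent.Helper856.Cw Pool.Agent.Helper856.Lcw SimpleGraph

theorem hs_main {k : ℕ} {V : Type} {G : SimpleGraph V} {l : V → Fin k} (h : CwBuilt k V G l) :
    Finite V ∧ ∀ (X : Set V) (m : ℕ), 1 ≤ m → m ≤ X.ncard → ∃ (Z : Set V) (τ : V → Fin k),
      (∀ u ∈ Z, ∀ v ∈ Z, τ u = τ v → (∀ w, w ∉ Z → (G.Adj u w ↔ G.Adj v w)) ∧ l u = l v) ∧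
      m ≤ (X ∩ Z).ncard ∧ (X ∩ Z).ncard ≤ 2 * m - 1 := by
  induction h with
  | single i =>
    refine ⟨inferInstance, fun X m hm hX => ⟨Set.univ, fun _ => i, ?_, ?_, ?_⟩⟩
    · intro u _ v _ _
      exact ⟨fun w hw => absurd (Set.mem_univ w) hw, rfl⟩
    · rwa [Set.inter_univ]
    · rw [Set.inter_univ]
      have h1 : X.ncard ≤ 1 := Set.ncard_le_one_of_subsingleton X
      omega
  | union V W G H l r hG hH ihG ihH =>
    obtain ⟨hV, ihG⟩ := ihG
    obtain ⟨hW, ihH⟩ := ihH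
    refine ⟨inferInstance, fun X m hm hX => ?_⟩
    have hcard : X.ncard = (Sum.inl ⁻¹' X).ncard + (Sum.inr ⁻¹' X).ncard := by
      have h1 : X = Sum.inl '' (Sum.inl ⁻¹' X) ∪ Sum.inr '' (Sum.inr ⁻¹' X) := by
        ext x
        rcases x with x | x <;> simp
      conv_lhs => rw [h1]
      rw [Set.ncard_union_eq, Set.ncard_image_of_injective _ Sum.inl_injective,
        Set.ncard_image_of_injective _ Sum.inr_injective]
      rw [Set.disjoint_left]
      rintro _ ⟨x, _, rfl⟩ ⟨y, _, hy⟩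
      exact Sum.inr_ne_inl hy
    by_cases h1 : m ≤ (Sum.inl ⁻¹' X).ncard
    · obtain ⟨Z, τ, ha, hb, hc⟩ := ihG _ m hm h1
      have h2 : (X ∩ Sum.inl '' Z).ncard = ((Sum.inl ⁻¹' X) ∩ Z).ncard := by
        rw [← Set.ncard_image_of_injective ((Sum.inl ⁻¹' X) ∩ Z)
          (Sum.inl_injective : Function.Injective (Sum.inl : V → V ⊕ W)), Set.image_preimage_inter]
      refine ⟨Sum.inl '' Z, Sum.elim τ r, ?_, ?_, ?_⟩
      · rintro _ ⟨u, hu, rfl⟩ _ ⟨v, hv, rfl⟩ hτ
        obtain ⟨h3, h4⟩ := ha u hu v hv hτ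
        refine ⟨fun w hw => ?_, h4⟩
        rcases w with w | w
        · rw [sum_adj_inl, sum_adj_inl]
          exact h3 w fun hwZ => hw ⟨w, hwZ, rfl⟩
        · exact Iff.rfl
      · rw [h2]; exact hb
      · rw [h2]; exact hc
    by_cases h1' : m ≤ (Sum.inr ⁻¹' X).ncard
    · obtain ⟨Z, τ, ha, hb, hc⟩ := ihH _ m hm h1'
      have h2 : (X ∩ Sum.inr '' Z).ncard = ((Sum.inr ⁻¹' X) ∩ Z).ncard := by
        rw [← Set.ncard_image_of_injective ((Sum.inr ⁻¹' X) ∩ Z)
          (Sum.inr_injective : Function.Injective (Sum.inr : W → V ⊕ W)), Set.image_preimage_inter]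
      refine ⟨Sum.inr '' Z, Sum.elim l τ, ?_, ?_, ?_⟩
      · rintro _ ⟨u, hu, rfl⟩ _ ⟨v, hv, rfl⟩ hτ
        obtain ⟨h3, h4⟩ := ha u hu v hv hτ
        refine ⟨fun w hw => ?_, h4⟩
        rcases w with w | w
        · exact Iff.rfl
        · rw [sum_adj_inr, sum_adj_inr]
          exact h3 w fun hwZ => hw ⟨w, hwZ, rfl⟩
      · rw [h2]; exact hb
      · rw [h2]; exact hc
    · refine ⟨Set.univ, Sum.elim l r, ?_, ?_, ?_⟩
      · intro u _ v _ huv
        exact ⟨fun w hw => absurd (Set.mem_univ w) hw, huv⟩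
      · rwa [Set.inter_univ]
      · rw [Set.inter_univ]
        omega
  | join V G l i j hij hG ih =>
    obtain ⟨hV, ih⟩ := ih
    refine ⟨hV, fun X m hm hX => ?_⟩
    obtain ⟨Z, τ, ha, hb, hc⟩ := ih X m hm hX
    refine ⟨Z, τ, fun u hu v hv huv => ?_, hb, hc⟩
    obtain ⟨h3, h4⟩ := ha u hu v hv huv
    refine ⟨fun w hw => ?_, h4⟩
    have hu' : u ≠ w := fun h => hw (h ▸ hu)
    have hv' : v ≠ w := fun h => hw (h ▸ hv)
    rw [sup_adj, sup_adj, fromRel_adj, fromRel_adj, h3 w hw, h4]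
    simp only [ne_eq, hu', hv', not_false_eq_true, true_and]
  | relabel V G l i j hG ih =>
    obtain ⟨hV, ih⟩ := ih
    refine ⟨hV, fun X m hm hX => ?_⟩
    obtain ⟨Z, τ, ha, hb, hc⟩ := ih X m hm hX
    refine ⟨Z, τ, fun u hu v hv huv => ?_, hb, hc⟩
    obtain ⟨h3, h4⟩ := ha u hu v hv huv
    exact ⟨h3, by simp only [h4]⟩

theorem hasSplits_of_cwLE {V : Type} {G : SimpleGraph V} {k : ℕ} (h : CwLE G k) :
    HasSplits k G := by
  obtain ⟨W, G', l, hb, ⟨e⟩⟩ := h
  obtain ⟨hW, hm⟩ := hs_main hb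
  have hV : Finite V := Finite.of_equiv W e.toEquiv.symm
  intro X m hX
  rcases Nat.eq_zero_or_pos m with rfl | hpos
  · refine ⟨∅, fun v => l (e v), ?_, Nat.zero_le _, Nat.zero_le _⟩
    intro u hu
    exact absurd hu (Set.notMem_empty u)
  · have hcard : (e '' X).ncard = X.ncard := Set.ncard_image_of_injective _ e.injective
    obtain ⟨Z, τ, ha, h1, h2⟩ := hm (e '' X) m hpos (by omega)
    have h3 : (e '' X ∩ Z).ncard = (X ∩ e ⁻¹' Z).ncard := by
      rw [← Set.ncard_image_of_injective (X ∩ e ⁻¹' Z) e.injective, Set.image_inter_preimage]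
    rw [h3] at h1 h2
    refine ⟨e ⁻¹' Z, fun v => τ (e v), ?_, h1, ?_⟩
    · intro u hu v hv huv w hw
      have h4 := (ha (e u) hu (e v) hv huv).1 (e w) hw
      rwa [e.map_adj_iff, e.map_adj_iff] at h4
    · have h5 := Set.ncard_inter_add_ncard_sdiff_eq_ncard X (e ⁻¹' Z)
      omega

theorem HasSplits.mono {V : Type} {G : SimpleGraph V} {k k' : ℕ} (h : HasSplits k G)
    (hk : k ≤ k') : HasSplits k' G := by
  intro X m hX
  obtain ⟨Z, τ, ha, h1, h2⟩ := h X m hX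
  refine ⟨Z, fun v => Fin.castLE hk (τ v), ?_, h1, h2⟩
  intro u hu v hv huv w hw
  exact ha u hu v hv (Fin.castLE_injective hk huv) w hw

theorem HasSplits.compl {V : Type} {G : SimpleGraph V} {k : ℕ} (h : HasSplits k G) :
    HasSplits k Gᶜ := by
  intro X m hX
  obtain ⟨Z, τ, ha, h1, h2⟩ := h X m hX
  refine ⟨Z, τ, ?_, h1, h2⟩
  intro u hu v hv huv w hw
  have hu' : u ≠ w := fun h => hw (h ▸ hu)
  have hv' : v ≠ w := fun h => hw (h ▸ hv)
  rw [compl_adj, compl_adj, ha u hu v hv huv w hw]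
  simp only [ne_eq, hu', hv', not_false_eq_true, true_and]

/-- for a finite graph of clique-width at most `c` (the clique-width of a graph without vertices
is `0` by convention) -/
theorem hasSplits_of_cliqueWidth {V : Type} [Finite V] {G : SimpleGraph V} {c : ℕ}
    (h : cliqueWidth G ≤ c) : HasSplits c G := by
  rcases isEmpty_or_nonempty V with hV | hV
  · intro X m hX
    refine ⟨∅, fun v => isEmptyElim v, fun u => isEmptyElim u, ?_, ?_⟩
    · have : X.ncard = 0 := by rw [Set.eq_empty_of_isEmpty X, Set.ncard_empty]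
      omega
    · have : X.ncard = 0 := by rw [Set.eq_empty_of_isEmpty X, Set.ncard_empty]
      omega
  · obtain ⟨k, hk⟩ := exists_lcwLE G
    have h1 : CwLE G (cliqueWidth G) :=
      Nat.sInf_mem (s := {k | CwLE G k}) ⟨k, cwLE_of_lcwLE hk⟩
    exact (hasSplits_of_cwLE h1).mono h

end Pool.Agent.H333R2.Col
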