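import Pool.Agent.H333R2.Col.PO1

/-!
# Polynomial time: merging tables and the whole algorithm
-/

namespace Pool.Agent.H333R2.Col

open Pool.Agent.H622R2 Pool.Agent.NPC

section Basic

variable {α : Type} [TEnc α]

theorem po_adjB {M : α → List (List Bool)} {u v : α → ℕ} (hM : Poly M) (hu : Poly u)
    (hv : Poly v) : Poly (fun a => adjB (M a) (u a) (v a)) := by
  unfold adjB entry
  fun_prop

attribute [local fun_prop] po_adjB

theorem po_range {M : α → List (List Bool)} (hM : Poly M) :
    Poly (fun a => List.range (M a).length) := Poly.range_length hM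

attribute [local fun_prop] po_range

theorem po_below {M : α → List (List Bool)} {r : α → ℕ} (hM : Poly M) (hr : Poly r) :
    Poly (fun a => below (M a).length (r a)) := by
  unfold below
  fun_prop

attribute [local fun_prop] po_below

theorem po_sig {M : α → List (List Bool)} {B S : α → List ℕ} (hM : Poly M) (hB : Poly B)
    (hS : Poly S) : Poly (fun a => sig (adjB (M a)) (M a).length (B a) (S a)) := by
  unfold sig
  fun_prop

attribute [local fun_prop] po_sig

theorem po_permB {l l' : α → List (List ℕ)} (hl : Poly l) (hl' : Poly l') :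
    Poly (fun a => permB (l a) (l' a)) := by
  unfold permB
  fun_prop

attribute [local fun_prop] po_permB

theorem po_sameSig {M : α → List (List Bool)} {B : α → List ℕ} {L L' : α → List (List ℕ)}
    (hM : Poly M) (hB : Poly B) (hL : Poly L) (hL' : Poly L') :
    Poly (fun a => sameSig (adjB (M a)) (M a).length (B a) (L a) (L' a)) := by
  unfold sameSig
  fun_prop

attribute [local fun_prop] po_sameSig

theorem po_noEdge {M : α → List (List Bool)} {S S' : α → List ℕ}
    (hM : Poly M) (hS : Poly S) (hS' : Poly S') :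
    Poly (fun a => noEdge (adjB (M a)) (S a) (S' a)) := by
  unfold noEdge
  fun_prop

attribute [local fun_prop] po_noEdge

theorem po_uni {M : α → List (List Bool)} {S S' : α → List ℕ}
    (hM : Poly M) (hS : Poly S) (hS' : Poly S') :
    Poly (fun a => uni (M a).length (S a) (S' a)) := by
  unfold uni
  fun_prop

attribute [local fun_prop] po_uni

theorem po_sameKey {M : α → List (List Bool)} {B B1 B2 : α → List ℕ} {s s' : α → MState}
    (hM : Poly M) (hB : Poly B) (hB1 : Poly B1) (hB2 : Poly B2) (hs : Poly s) (hs' : Poly s') :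
    Poly (fun a => sameKey (adjB (M a)) (M a).length (B a) (B1 a) (B2 a) (s a) (s' a)) := by
  unfold sameKey
  fun_prop

attribute [local fun_prop] po_sameKey

theorem po_picks {L : α → List (List ℕ)} (hL : Poly L) : Poly (fun a => picks (L a)) := by
  unfold picks
  fun_prop

attribute [local fun_prop] po_picks

theorem po_mergeNext {M : α → List (List Bool)} {s : α → MState} (hM : Poly M) (hs : Poly s) :
    Poly (fun a => mergeNext (adjB (M a)) (M a).length (s a)) := by
  unfold mergeNext
  fun_prop

attribute [local fun_prop] po_mergeNext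

end Basic

/-! ### Sizes -/

section Sizes

theorem sz_sublist {β : Type} [TEnc β] {l l' : List β} (h : l.Sublist l') : sz l ≤ sz l' := by
  induction h with
  | slnil => exact le_rfl
  | cons a _ ih =>
    rw [sz_list_cons]
    omega
  | cons_cons a _ ih =>
    rw [sz_list_cons, sz_list_cons]
    omega

theorem nubCut_aux {σ : Type} (eqv : σ → σ → Bool) (m : ℕ) (l : List σ) :
    (nubCut eqv m l).Sublist l.reverse ∧ (nubCut eqv m l).length ≤ m := by
  unfold nubCut
  induction l using List.reverseRecOn with
  | nil => simp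
  | append_singleton l a ih =>
    rw [List.foldl_append, List.foldl_cons, List.foldl_nil, List.reverse_append]
    simp only [List.reverse_cons, List.reverse_nil, List.nil_append, List.singleton_append]
    obtain ⟨h1, h2⟩ := ih
    split_ifs with h
    · exact ⟨h1.trans (List.sublist_cons_self _ _), h2⟩
    · refine ⟨h1.cons_cons a, ?_⟩
      rw [Bool.or_eq_true, not_or] at h
      have := h.2
      rw [decide_eq_true_eq] at this
      rw [List.length_cons]
      omega

theorem nubCut_length {σ : Type} (eqv : σ → σ → Bool) (m : ℕ) (l : List σ) :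
    (nubCut eqv m l).length ≤ m := (nubCut_aux eqv m l).2

theorem mem_of_mem_nubCut {σ : Type} {eqv : σ → σ → Bool} {m : ℕ} {l : List σ} {s : σ}
    (h : s ∈ nubCut eqv m l) : s ∈ l := by
  have := (nubCut_aux eqv m l).1.subset h
  rwa [List.mem_reverse] at this

theorem sz_nubCut {σ : Type} [TEnc σ] (eqv : σ → σ → Bool) (m : ℕ) (l : List σ) :
    sz (nubCut eqv m l) ≤ sz l := by
  have := sz_sublist (nubCut_aux eqv m l).1
  rwa [sz_reverse] at this

theorem po_nubCut {α σ : Type} [TEnc α] [TEnc σ] {eqv : α → σ → σ → Bool} {m : α → ℕ}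
    {l : α → List σ} (he : Poly (fun p : α × σ × σ => eqv p.1 p.2.1 p.2.2)) (hm : Poly m)
    (hl : Poly l) : Poly (fun a => nubCut (eqv a) (m a) (l a)) := by
  obtain ⟨r, hr⟩ := hl.sz_le
  unfold nubCut
  refine NPC.Poly.foldl (s := fun _ => ([] : List σ)) (F := fun a acc s =>
    if (acc.any (fun t => eqv a t s) || decide (m a ≤ acc.length)) = true then acc
    else s :: acc) hl (NPC.Poly.const _) ?_ r ?_
  · have h1 : Poly (fun p : α × List σ × σ => p.2.1.any (fun t => eqv p.1 t p.2.2)) :=
      NPC.Poly.any (l := fun p : α × List σ × σ => p.2.1) (p := fun p t => eqv p.1 t p.2.2)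
        (by fun_prop)
        (he.comp (f := fun q : (α × List σ × σ) × σ => (q.1.1, q.2, q.1.2.2)) (by fun_prop))
    fun_prop
  · intro a k _
    exact (sz_nubCut (eqv a) (m a) ((l a).take k)).trans ((sz_take_le _ _).trans (hr a))
where
  sz_take_le {β : Type} [TEnc β] (l : List β) (k : ℕ) : sz (l.take k) ≤ sz l :=
    sz_sublist (List.take_sublist k l)

end Sizes

/-! ### Merging -/

section Merge

variable (adj : ℕ → ℕ → Bool) (n : ℕ)

theorem mem_picks_sublist {L : List (List ℕ)} {a : List ℕ × List (List ℕ)} (h : a ∈ picks L) :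
    a.2.Sublist L := by
  unfold picks at h
  rw [List.mem_map] at h
  obtain ⟨q, _, rfl⟩ := h
  have h1 := (List.filter_sublist (l := L.zipIdx)
    (p := fun p => !decide (p.2 = q.2))).map Prod.fst
  have h2 : L.zipIdx.map Prod.fst = L := by
    simp
  rw [h2] at h1
  exact h1

theorem uni_sublist (S S' : List ℕ) : (uni n S S').Sublist (List.range n) :=
  List.filter_sublist

theorem sz_mergeNext {s s' : MState} (h : s' ∈ mergeNext adj n s) :
    sz s' ≤ sz s + (sz (List.range n) + 1) := by
  unfold mergeNext at h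
  rw [List.mem_flatMap] at h
  obtain ⟨a, ha, h⟩ := h
  rw [List.mem_map] at h
  obtain ⟨b, hb, rfl⟩ := h
  rw [List.mem_filter] at hb
  have h1 := sz_sublist (mem_picks_sublist ha)
  have h2 := sz_sublist (mem_picks_sublist hb.1)
  have h3 := sz_sublist (uni_sublist n a.1 b.1)
  obtain ⟨s1, s2, s3⟩ := s
  simp only [sz_pair, sz_list_cons] at h1 h2 h3 ⊢
  omega

theorem covers_mergeNext {s s' : MState} (h : s' ∈ mergeNext adj n s) :
    s'.2.2.length = s.2.2.length + 1 ∧ ((∀ S ∈ s.2.2, sz S ≤ sz (List.range n)) →
      ∀ S ∈ s'.2.2, sz S ≤ sz (List.range n)) := by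
  unfold mergeNext at h
  rw [List.mem_flatMap] at h
  obtain ⟨a, ha, h⟩ := h
  rw [List.mem_map] at h
  obtain ⟨b, hb, rfl⟩ := h
  refine ⟨by simp, ?_⟩
  intro h4 S hS
  simp only [List.mem_cons] at hS
  rcases hS with rfl | hS
  · exact sz_sublist (uni_sublist n a.1 b.1)
  · exact h4 S hS

theorem mergeIter_spec (m : ℕ) (B B1 B2 : List ℕ) (T1 T2 : List (List (List ℕ))) (k : ℕ) :
    ((mergeRound adj n m B B1 B2)^[k] (mergeInit adj n m B B1 B2 T1 T2)).length ≤ m ∧
    ∀ s ∈ (mergeRound adj n m B B1 B2)^[k] (mergeInit adj n m B B1 B2 T1 T2),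
      sz s ≤ sz T1 + sz T2 + 3 + k * (sz (List.range n) + 1) ∧ s.2.2.length = k ∧
      ∀ S ∈ s.2.2, sz S ≤ sz (List.range n) := by
  induction k with
  | zero =>
    refine ⟨nubCut_length _ _ _, fun s hs => ?_⟩
    have h1 := mem_of_mem_nubCut hs
    rw [List.mem_flatMap] at h1
    obtain ⟨L1, hL1, h1⟩ := h1
    rw [List.mem_map] at h1
    obtain ⟨L2, hL2, rfl⟩ := h1
    have h2 := sz_le_of_mem hL1
    have h3 := sz_le_of_mem hL2
    refine ⟨?_, rfl, by simp⟩
    simp only [sz_pair, sz_list_nil]
    omega
  | succ k ih =>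
    rw [Function.iterate_succ_apply']
    refine ⟨nubCut_length _ _ _, fun s hs => ?_⟩
    have h1 := mem_of_mem_nubCut hs
    rw [List.mem_flatMap] at h1
    obtain ⟨s0, hs0, h1⟩ := h1
    obtain ⟨h2, h3, h4⟩ := ih.2 s0 hs0
    obtain ⟨h5, h6⟩ := covers_mergeNext adj n h1
    have h7 := sz_mergeNext adj n h1
    refine ⟨?_, by omega, h6 h4⟩
    rw [add_mul]
    omega

theorem sz_mergeIter (m : ℕ) (B B1 B2 : List ℕ) (T1 T2 : List (List (List ℕ))) (k : ℕ) :
    sz ((mergeRound adj n m B B1 B2)^[k] (mergeInit adj n m B B1 B2 T1 T2)) ≤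
      m * (sz T1 + sz T2 + 3 + k * (sz (List.range n) + 1) + 1) + 1 := by
  obtain ⟨h1, h2⟩ := mergeIter_spec adj n m B B1 B2 T1 T2 k
  refine (sz_le_length_mul _ _ (fun s hs => (h2 s hs).1)).trans ?_
  exact Nat.add_le_add_right (Nat.mul_le_mul_right _ h1) 1

/-- The size of a merged table does not depend on the tables merged. -/
theorem sz_merge (m : ℕ) (Q B B1 B2 : List ℕ) (T1 T2 : List (List (List ℕ))) :
    sz (merge adj n m Q B B1 B2 T1 T2) ≤
      (m + Q.length) * (Q.length * (sz (List.range n) + 1) + 2) + 1 := by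
  unfold merge
  obtain ⟨h1, h2⟩ := mergeIter_spec adj n m B B1 B2 T1 T2 Q.length
  have h3 := sz_le_length_mul (((mergeRound adj n m B B1 B2)^[Q.length]
    (mergeInit adj n m B B1 B2 T1 T2)).map (fun s => s.2.2))
    (Q.length * (sz (List.range n) + 1) + 1) (by
      intro L hL
      rw [List.mem_map] at hL
      obtain ⟨s, hs, rfl⟩ := hL
      obtain ⟨_, h4, h5⟩ := h2 s hs
      have h6 := sz_le_length_mul s.2.2 _ h5
      rwa [h4] at h6)
  refine h3.trans (Nat.add_le_add_right (Nat.mul_le_mul_right _ ?_) 1)
  rw [List.length_map]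
  omega

/-- The size of a table of a part with one vertex. -/
theorem sz_base (m : ℕ) (Q B : List ℕ) (hB : sz B ≤ sz (List.range n)) :
    sz (base Q B) ≤ (m + Q.length) * (Q.length * (sz (List.range n) + 1) + 2) + 1 := by
  unfold base
  have h3 := sz_le_length_mul (Q.map fun j => Q.map fun i => if i ≤ j then B else [])
    (Q.length * (sz (List.range n) + 1) + 1) (by
      intro L hL
      rw [List.mem_map] at hL
      obtain ⟨j, _, rfl⟩ := hL
      have h6 := sz_le_length_mul (Q.map fun i => if i ≤ j then B else [])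
        (sz (List.range n)) (by
          intro S hS
          rw [List.mem_map] at hS
          obtain ⟨i, _, rfl⟩ := hS
          have := sz_pos (List.range n)
          split_ifs
          · exact hB
          · rw [sz_list_nil]
            omega)
      rwa [List.length_map] at h6)
  refine h3.trans (Nat.add_le_add_right (Nat.mul_le_mul_right _ ?_) 1)
  rw [List.length_map]
  omega

end Merge

section MergePoly

variable {α : Type} [TEnc α] {M : α → List (List Bool)} {m : α → ℕ}
  {Q B B1 B2 : α → List ℕ} {T1 T2 : α → List (List (List ℕ))}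

attribute [local fun_prop] po_sameKey po_mergeNext

theorem po_mergeInit (hM : Poly M) (hm : Poly m) (hB : Poly B) (hB1 : Poly B1) (hB2 : Poly B2)
    (hT1 : Poly T1) (hT2 : Poly T2) :
    Poly (fun a => mergeInit (adjB (M a)) (M a).length (m a) (B a) (B1 a) (B2 a) (T1 a)
      (T2 a)) := by
  unfold mergeInit
  refine po_nubCut (eqv := fun a => sameKey (adjB (M a)) (M a).length (B a) (B1 a) (B2 a))
    (by fun_prop) hm ?_
  fun_prop

theorem po_mergeRound {X : α → List MState} (hM : Poly M) (hm : Poly m) (hB : Poly B)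
    (hB1 : Poly B1) (hB2 : Poly B2) (hX : Poly X) :
    Poly (fun a => mergeRound (adjB (M a)) (M a).length (m a) (B a) (B1 a) (B2 a) (X a)) := by
  unfold mergeRound
  refine po_nubCut (eqv := fun a => sameKey (adjB (M a)) (M a).length (B a) (B1 a) (B2 a))
    (by fun_prop) hm ?_
  fun_prop

/-- A polynomial bound for unary quantities. -/
theorem upoly_le (hm : UPoly m) : ∃ r : Polynomial ℕ, ∀ a, m a ≤ r.eval (sz a) := by
  obtain ⟨r, hr⟩ := NPC.Poly.sz_le hm
  refine ⟨r, fun a => ?_⟩
  have h1 := length_lt_sz (List.replicate (m a) ())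
  have h2 := hr a
  rw [List.length_replicate] at h1
  omega

theorem length_le_poly {β : Type} [TEnc β] {l : α → List β} (hl : Poly l) :
    ∃ r : Polynomial ℕ, ∀ a, (l a).length ≤ r.eval (sz a) :=
  upoly_le (UPoly.length hl)

theorem poly_merge (hM : Poly M) (hm : UPoly m)
    (hQ : Poly Q) (hB : Poly B) (hB1 : Poly B1) (hB2 : Poly B2) (hT1 : Poly T1) (hT2 : Poly T2) :
    Poly (fun a => merge (adjB (M a)) (M a).length (m a) (Q a) (B a) (B1 a) (B2 a) (T1 a)
      (T2 a)) := by
  obtain ⟨rm, hrm⟩ := upoly_le hm
  obtain ⟨rQ, hrQ⟩ := length_le_poly hQ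
  obtain ⟨rn, hrn⟩ := (po_range hM).sz_le
  obtain ⟨r1, hr1⟩ := hT1.sz_le
  obtain ⟨r2, hr2⟩ := hT2.sz_le
  unfold merge
  refine NPC.Poly.map (F := fun _ (s : MState) => s.2.2) ?_ (by fun_prop)
  refine NPC.Poly.iterLen (F := fun a X => mergeRound (adjB (M a)) (M a).length (m a) (B a)
    (B1 a) (B2 a) X) hQ (po_mergeInit hM hm.toPoly hB hB1 hB2 hT1 hT2)
    (po_mergeRound (α := α × List MState) (by fun_prop)
      (hm.toPoly.comp (by fun_prop)) (by fun_prop) (by fun_prop) (by fun_prop) (by fun_prop))
    (rm * (r1 + r2 + Polynomial.C 3 + rQ * (rn + Polynomial.C 1) + Polynomial.C 1)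
      + Polynomial.C 1) ?_
  intro a k hk
  refine (sz_mergeIter _ _ _ _ _ _ _ _ k).trans ?_
  simp only [Polynomial.eval_add, Polynomial.eval_mul, Polynomial.eval_C]
  have h1 := hrm a
  have h2 := hrQ a
  have h3 := hrn a
  have h4 := hr1 a
  have h5 := hr2 a
  gcongr
  exact hk.trans h2

end MergePoly

/-! ### Parts -/

section Parts

variable (adj : ℕ → ℕ → Bool) (n : ℕ)

theorem split_eq_splitBy {k t : ℕ} {B : List ℕ} {p : List ℕ × List ℕ}
    (h : split adj n k t B = some p) : ∃ Z, splitBy B Z = p := by
  unfold split at h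
  have h1 := List.mem_of_head? h
  rw [List.mem_filter, List.mem_map] at h1
  obtain ⟨⟨Z, _, hZ⟩, _⟩ := h1
  exact ⟨Z, hZ⟩

theorem stepPart_sublist (k t v : ℕ) (P : List ℕ) : (stepPart adj n k t v P).Sublist P := by
  unfold stepPart
  cases h : split adj n k t P with
  | none => exact List.Sublist.refl _
  | some p =>
    obtain ⟨Z, rfl⟩ := split_eq_splitBy adj n h
    simp only [Option.elim_some]
    split_ifs
    · exact List.filter_sublist
    · exact List.filter_sublist

theorem part_sublist (k t : ℕ) (l : List ℕ) (v : ℕ) :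
    (part adj n k t l v).Sublist (List.range n) := by
  unfold part
  induction l.length with
  | zero => exact List.Sublist.refl _
  | succ i ih =>
    rw [Function.iterate_succ_apply']
    exact (stepPart_sublist adj n k t v _).trans ih

/-- The size of all tables. -/
theorem sz_tabAt (k t m : ℕ) (Q : List ℕ) (tab : List (List (List (List ℕ)))) (r v : ℕ) :
    sz (tabAt adj n k t m Q tab r v) ≤
      (m + Q.length) * (Q.length * (sz (List.range n) + 1) + 2) + 1 := by
  unfold tabAt
  cases split adj n k t (part adj n k t (below n r) v) with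
  | none => exact sz_base n m Q _ (sz_sublist (part_sublist adj n k t _ v))
  | some p => exact sz_merge adj n m Q _ _ _ _ _

end Parts

/-! ### The algorithm -/

section Algorithm

variable {α : Type} [TEnc α] {M : α → List (List Bool)} {m : α → ℕ} {Q : α → List ℕ}

theorem po_base {B : α → List ℕ} (hQ : Poly Q) (hB : Poly B) :
    Poly (fun a => base (Q a) (B a)) := by
  unfold base
  fun_prop

theorem po_tabAt {tab : α → List (List (List (List ℕ)))} {r v : α → ℕ} (hM : Poly M)
    (hm : UPoly m) (hQ : Poly Q) (ht : Poly tab) (hr : Poly r) (hv : Poly v) (k t : ℕ) :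
    Poly (fun a => tabAt (adjB (M a)) (M a).length k t (m a) (Q a) (tab a) (r a) (v a)) := by
  have hp : Poly (fun a => part (adjB (M a)) (M a).length k t (below (M a).length (r a))
    (v a)) := poly_part hM (po_below hM hr) hv k t
  unfold tabAt
  refine NPC.Poly.optElim
    (o := fun a => split (adjB (M a)) (M a).length k t
      (part (adjB (M a)) (M a).length k t (below (M a).length (r a)) (v a)))
    (h := fun a p => merge (adjB (M a)) (M a).length (m a) (Q a)
      (part (adjB (M a)) (M a).length k t (below (M a).length (r a)) (v a)) p.1 p.2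
      ((tab a).getD (p.1.head?.getD 0) []) ((tab a).getD (p.2.head?.getD 0) []))
    (poly_split hM hp k t) (po_base hQ hp) ?_
  exact poly_merge (α := α × List ℕ × List ℕ) (by fun_prop) (hm.comp (by fun_prop))
    (by fun_prop) (hp.comp (by fun_prop)) (by fun_prop) (by fun_prop) (by fun_prop)
    (by fun_prop)

theorem po_tabs (hM : Poly M) (hm : UPoly m) (hQ : Poly Q) (k t : ℕ) :
    Poly (fun a => tabs (adjB (M a)) (M a).length k t (m a) (Q a)) := by
  obtain ⟨rm, hrm⟩ := upoly_le hm
  obtain ⟨rQ, hrQ⟩ := length_le_poly hQ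
  obtain ⟨rM, hrM⟩ := length_le_poly hM
  obtain ⟨rn, hrn⟩ := (po_range hM).sz_le
  unfold tabs
  refine NPC.Poly.foldl (l := fun a => (List.range (M a).length).reverse)
    (s := fun a => (List.range (M a).length).map fun v =>
      base (Q a) (part (adjB (M a)) (M a).length k t (List.range (M a).length) v))
    (F := fun a tab r => (List.range (M a).length).map fun v =>
      tabAt (adjB (M a)) (M a).length k t (m a) (Q a) tab r v)
    (NPC.Poly.reverse (po_range hM)) ?_ ?_
    (rM * ((rm + rQ) * (rQ * (rn + Polynomial.C 1) + Polynomial.C 2) + Polynomial.C 1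
      + Polynomial.C 1) + Polynomial.C 1) ?_
  · refine NPC.Poly.map (F := fun a v => base (Q a) (part (adjB (M a)) (M a).length k t
      (List.range (M a).length) v)) (po_range hM) ?_
    exact po_base (α := α × ℕ) (by fun_prop) (poly_part (α := α × ℕ) (by fun_prop)
      (po_range (by fun_prop)) (by fun_prop) k t)
  · refine NPC.Poly.map (α := α × List (List (List (List ℕ))) × ℕ)
      (l := fun p => List.range (M p.1).length)
      (F := fun p v => tabAt (adjB (M p.1)) (M p.1).length k t (m p.1) (Q p.1) p.2.1 p.2.2 v)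
      (po_range (by fun_prop)) ?_
    exact po_tabAt (α := (α × List (List (List (List ℕ))) × ℕ) × ℕ) (by fun_prop)
      (hm.comp (by fun_prop)) (by fun_prop) (by fun_prop) (by fun_prop) (by fun_prop) k t
  · intro a i _
    have key : ∀ T : ℕ → List (List (List ℕ)), (∀ v, sz (T v) ≤ (m a + (Q a).length) *
        ((Q a).length * (sz (List.range (M a).length) + 1) + 2) + 1) →
        sz ((List.range (M a).length).map T) ≤ (rM * ((rm + rQ) * (rQ * (rn + Polynomial.C 1)
          + Polynomial.C 2) + Polynomial.C 1 + Polynomial.C 1) + Polynomial.C 1).eval (sz a) := by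
      intro T hT
      have h1 := sz_le_length_mul ((List.range (M a).length).map T) _ (by
        intro c hc
        rw [List.mem_map] at hc
        obtain ⟨v, _, rfl⟩ := hc
        exact hT v)
      refine h1.trans ?_
      rw [List.length_map, List.length_range]
      simp only [Polynomial.eval_add, Polynomial.eval_mul, Polynomial.eval_C]
      have h2 := hrm a
      have h3 := hrQ a
      have h4 := hrM a
      have h5 := hrn a
      gcongr
    cases h : (List.range (M a).length).reverse.take i using List.reverseRecOn with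
    | nil =>
      refine key _ fun v => ?_
      exact sz_base _ _ _ _ (sz_sublist (part_sublist _ _ _ _ _ _))
    | append_singleton l r =>
      rw [List.foldl_append, List.foldl_cons, List.foldl_nil]
      exact key _ fun v => sz_tabAt _ _ _ _ _ _ _ _ _

end Algorithm

theorem poly_colTest (k : ℕ) : Poly (colTest k) := by
  have hM : Poly (fun x : List (List Bool) × ℕ => x.1) := by fun_prop
  have hm : UPoly (fun x : List (List Bool) × ℕ => (x.1.length + 1) ^ expB (dimB k)) :=
    ((UPoly.length hM).eval ((Polynomial.X + 1) ^ expB (dimB k))).congr fun x => by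
      simp
  have hQ : Poly (fun x : List (List Bool) × ℕ => below x.1.length x.2) :=
    po_below hM (by fun_prop)
  have hT := po_tabs hM hm hQ k (dimB k)
  unfold colTest
  refine NPC.Poly.ite (by fun_prop) (NPC.Poly.const true) ?_
  exact NPC.Poly.not (NPC.Poly.isEmpty (NPC.Poly.getD hT (NPC.Poly.const 0)
    (NPC.Poly.const [])))

end Pool.Agent.H333R2.Col
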