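import Pool.Agent.H333R2.Col.FN
import Pool.Agent.H333R2.Col.HS
import Pool.Agent.H333R2.Col.PO2
import Pool.Agent.NPC.Dec

/-!
# COLOURING is polynomial on every class of bounded clique-width
-/

namespace Pool.Agent.H333R2.Col

open Pool.Agent.H622R2 Pool.Agent.NPC Pool.Agent.Helper856.Cw

/-- COLOURING can be solved in polynomial time when restricted to the graphs with property `P`:
there is one polynomial-time Turing machine (in Mathlib's sense) which, given (the code of) an
adjacency matrix `M` of a graph with property `P` and a number `q` (in binary), decides whether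
the graph has a proper colouring with at most `q` colours. -/
def ColouringInPOn (P : ∀ (V : Type), SimpleGraph V → Prop) : Prop :=
  ∃ F : List Bool → List Bool, PolyTime F ∧ ∀ (M : List (List Bool)) (q : ℕ),
    P (Fin M.length) (matGraph M) → (F (bits (M, q)) = [true] ↔ (matGraph M).Colorable q)

/-- A version with the splitting property instead of clique-width. -/
theorem colouringInPOn_of_splits {P : ∀ (V : Type), SimpleGraph V → Prop} {k : ℕ}
    (h : ∀ (V : Type) [Finite V] (G : SimpleGraph V), P V G → HasSplits k G) :
    ColouringInPOn P := by
  have hp : Poly (fun x : List Bool => (unbits (List (List Bool) × ℕ) x).elim false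
      (fun y => colTest (k + 1) y)) :=
    Poly.optElim (o := fun x => unbits (List (List Bool) × ℕ) x) (g := fun _ => false)
      (h := fun _ y => colTest (k + 1) y) poly_unbits (NPC.Poly.const false)
      ((poly_colTest (k + 1)).comp (NPC.Poly.snd NPC.Poly.id))
  refine ⟨_, polyTime_of_poly hp, fun M q hM => ?_⟩
  rw [unbits_bits]
  simp only [Option.elim_some, List.cons.injEq, and_true]
  exact colTest_spec (by omega) M q ((h _ _ hM).mono (by omega))

/-- COLOURING is polynomial on every class of graphs of bounded clique-width. -/
theorem colouringInPOn_of_cliqueWidth {P : ∀ (V : Type), SimpleGraph V → Prop} {c : ℕ}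
    (h : ∀ (V : Type) [Finite V] (G : SimpleGraph V), P V G → cliqueWidth G ≤ c) :
    ColouringInPOn P :=
  colouringInPOn_of_splits (k := c) fun V _ G hG => hasSplits_of_cliqueWidth (h V G hG)

/-- COLOURING is polynomial on every class of graphs whose complements have bounded
clique-width. -/
theorem colouringInPOn_of_cliqueWidth_compl {P : ∀ (V : Type), SimpleGraph V → Prop} {c : ℕ}
    (h : ∀ (V : Type) [Finite V] (G : SimpleGraph V), P V G → cliqueWidth Gᶜ ≤ c) :
    ColouringInPOn P :=
  colouringInPOn_of_splits (k := c) fun V _ G hG => by
    have h1 := (hasSplits_of_cliqueWidth (h V G hG)).compl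
    rwa [compl_compl] at h1

end Pool.Agent.H333R2.Col
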