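import Pool.Agent.H333R2.Col.Defs
import Pool.Agent.H671R2.PolyAuto

/-!
# Polynomial time: splitting a part, and the parts of all levels
-/

namespace Pool.Agent.H333R2.Col

open Pool.Agent.H622R2 Pool.Agent.NPC

namespace PO1

attribute [local fun_prop] Poly.range_length

variable {α : Type} [TEnc α] {M : α → List (List Bool)}

theorem poly_adjB {u v : α → ℕ} (hM : Poly M) (hu : Poly u) (hv : Poly v) :
    Poly (fun a => adjB (M a) (u a) (v a)) := by
  unfold adjB entry
  fun_prop

attribute [local fun_prop] poly_adjB

theorem poly_comb {c : α → List Bool} {R : α → List ℕ} {w : α → ℕ} (hM : Poly M) (hc : Poly c)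
    (hR : Poly R) (hw : Poly w) : Poly (fun a => comb (adjB (M a)) (c a) (R a) (w a)) := by
  unfold comb
  fun_prop

attribute [local fun_prop] poly_comb

theorem poly_inSpan (t : ℕ) {B R : α → List ℕ} {v : α → ℕ} (hM : Poly M) (hB : Poly B)
    (hR : Poly R) (hv : Poly v) :
    Poly (fun a => inSpan (adjB (M a)) (M a).length t (B a) (R a) (v a)) := by
  unfold inSpan
  fun_prop

attribute [local fun_prop] poly_inSpan

theorem poly_tuples {V : α → List ℕ} (hV : Poly V) (k : ℕ) : Poly (fun a => tuples (V a) k) := by
  induction k with
  | zero => exact NPC.Poly.const ([[]] : List (List ℕ))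
  | succ k ih =>
    refine (NPC.Poly.flatMap (l := V)
      (F := fun a v => (tuples (V a) k).map fun l => v :: l) hV ?_).congr fun a => rfl
    have h1 : Poly (fun p : α × ℕ => tuples (V p.1) k) :=
      ih.comp (f := fun p : α × ℕ => p.1) (by fun_prop)
    exact NPC.Poly.map h1 (by fun_prop)

attribute [local fun_prop] poly_tuples

theorem poly_rankLe (t : ℕ) {B : α → List ℕ} (hM : Poly M) (hB : Poly B) :
    Poly (fun a => rankLe (adjB (M a)) (M a).length t (B a)) := by
  unfold rankLe
  fun_prop

attribute [local fun_prop] poly_rankLe

theorem poly_coef (k : ℕ) {A D : α → List ℕ} {v : α → ℕ} (hM : Poly M) (hA : Poly A)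
    (hD : Poly D) (hv : Poly v) : Poly (fun a => coef (adjB (M a)) k (A a) (D a) (v a)) := by
  unfold coef
  fun_prop

attribute [local fun_prop] poly_coef

theorem poly_forces (k : ℕ) {A D : α → List ℕ} {v w : α → ℕ} (hM : Poly M) (hA : Poly A)
    (hD : Poly D) (hv : Poly v) (hw : Poly w) :
    Poly (fun a => forces (adjB (M a)) k (A a) (D a) (v a) (w a)) := by
  unfold forces
  fun_prop

attribute [local fun_prop] poly_forces

theorem poly_closStep (k : ℕ) {A D Z : α → List ℕ} (hM : Poly M) (hA : Poly A)
    (hD : Poly D) (hZ : Poly Z) :
    Poly (fun a => closStep (adjB (M a)) (M a).length k (A a) (D a) (Z a)) := by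
  unfold closStep
  fun_prop

attribute [local fun_prop] poly_closStep

theorem sz_sublist {l l' : List ℕ} (h : l.Sublist l') : sz l ≤ sz l' := by
  induction h with
  | slnil => exact le_rfl
  | cons a _ ih => rw [sz_list_cons]; omega
  | cons_cons a _ ih => rw [sz_list_cons, sz_list_cons]; omega

theorem poly_clos (k : ℕ) {A D X : α → List ℕ} (hM : Poly M) (hA : Poly A)
    (hD : Poly D) (hX : Poly X) :
    Poly (fun a => clos (adjB (M a)) (M a).length k (A a) (D a) (X a)) := by
  unfold clos
  obtain ⟨p, hp⟩ := (Poly.range_length hM).sz_le
  obtain ⟨q, hq⟩ := hX.sz_le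
  refine Poly.iterLen (l := M) (s := X)
    (F := fun a => closStep (adjB (M a)) (M a).length k (A a) (D a)) hM hX (by fun_prop)
    (p + q) ?_
  intro a j _
  rw [Polynomial.eval_add]
  rcases j with _ | j
  · have := hq a
    simp only [Function.iterate_zero, id_eq]
    omega
  · rw [Function.iterate_succ_apply']
    have h1 : sz (closStep (adjB (M a)) (M a).length k (A a) (D a)
        ((closStep (adjB (M a)) (M a).length k (A a) (D a))^[j] (X a))) ≤
        sz (List.range (M a).length) := sz_sublist List.filter_sublist
    have := hp a
    omega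

attribute [local fun_prop] poly_clos

theorem poly_cands (hM : Poly M) (k t : ℕ) :
    Poly (fun a => cands (adjB (M a)) (M a).length k t) := by
  unfold cands
  fun_prop

attribute [local fun_prop] poly_cands

theorem poly_splitBy {B Z : α → List ℕ} (hB : Poly B) (hZ : Poly Z) :
    Poly (fun a => splitBy (B a) (Z a)) := by
  unfold splitBy
  fun_prop

attribute [local fun_prop] poly_splitBy

theorem poly_goodSplit (t : ℕ) {p : α → List ℕ × List ℕ} (hM : Poly M) (hp : Poly p) :
    Poly (fun a => goodSplit (adjB (M a)) (M a).length t (p a)) := by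
  unfold goodSplit
  fun_prop

attribute [local fun_prop] poly_goodSplit

end PO1

open PO1

theorem poly_split {α : Type} [TEnc α] {M : α → List (List Bool)} {B : α → List ℕ} (hM : Poly M)
    (hB : Poly B) (k t : ℕ) :
    Poly (fun a => split (adjB (M a)) (M a).length k t (B a)) := by
  unfold split
  have h1 := poly_cands hM k t
  have h2 : Poly (fun a => (((B a).map (fun v => [v])) ++
      cands (adjB (M a)) (M a).length k t).map (splitBy (B a))) := by
    have h3 : Poly (fun a => (B a).map (fun v => [v])) := by fun_prop
    refine NPC.Poly.map (NPC.Poly.append h3 h1) ?_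
    exact poly_splitBy (by fun_prop) (by fun_prop)
  refine NPC.Poly.head? (NPC.Poly.filter h2 ?_)
  exact poly_goodSplit t (by fun_prop) (by fun_prop)

theorem poly_part {α : Type} [TEnc α] {M : α → List (List Bool)} {l : α → List ℕ} {v : α → ℕ}
    (hM : Poly M) (hl : Poly l) (hv : Poly v) (k t : ℕ) :
    Poly (fun a => part (adjB (M a)) (M a).length k t (l a) (v a)) := by
  unfold part
  have hs : Poly (fun p : α × List ℕ => stepPart (adjB (M p.1)) (M p.1).length k t (v p.1) p.2) := by
    unfold stepPart
    have h1 : Poly (fun p : α × List ℕ => split (adjB (M p.1)) (M p.1).length k t p.2) :=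
      poly_split (by fun_prop) (by fun_prop) k t
    refine Poly.optElim h1 (by fun_prop) ?_
    fun_prop
  obtain ⟨p, hp⟩ := (Poly.range_length hM).sz_le
  refine Poly.iterLen (l := l) (s := fun a => List.range (M a).length)
    (F := fun a P => stepPart (adjB (M a)) (M a).length k t (v a) P) hl (Poly.range_length hM) hs
    p ?_
  intro a j _
  have key : ∀ j : ℕ, sz ((stepPart (adjB (M a)) (M a).length k t (v a))^[j]
      (List.range (M a).length)) ≤ sz (List.range (M a).length) := by
    intro j
    induction j with
    | zero => exact le_rfl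
    | succ j ih =>
      rw [Function.iterate_succ_apply']
      refine le_trans ?_ ih
      set P := (stepPart (adjB (M a)) (M a).length k t (v a))^[j] (List.range (M a).length)
      unfold stepPart
      cases hsp : split (adjB (M a)) (M a).length k t P with
      | none => exact le_rfl
      | some q =>
        have hmem : q ∈ ((((P.map (fun v => [v])) ++ cands (adjB (M a)) (M a).length k t).map
            (splitBy P)).filter (goodSplit (adjB (M a)) (M a).length t)) :=
          List.mem_of_head? hsp
        rw [List.mem_filter, List.mem_map] at hmem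
        obtain ⟨⟨Z, _, rfl⟩, _⟩ := hmem
        simp only [Option.elim_some, splitBy]
        split_ifs
        · exact sz_sublist List.filter_sublist
        · exact sz_sublist List.filter_sublist
  exact (key j).trans (hp a)

end Pool.Agent.H333R2.Col
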