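import Pool.Agent.H333R2.Col.BR

/-!
# Existence of a split
-/

namespace Pool.Agent.H333R2.Col

open Pool.Agent.H622R2

theorem split_spec {adj : ℕ → ℕ → Bool} {n k t : ℕ} {B : List ℕ} {p : List ℕ × List ℕ}
    (h : split adj n k t B = some p) : (∃ Z, p = splitBy B Z) ∧ p.1 ≠ [] ∧ p.2 ≠ [] ∧
      rankLe adj n t p.1 = true ∧ rankLe adj n t p.2 = true := by
  have hm := List.mem_of_head? h
  rw [List.mem_filter, List.mem_map] at hm
  obtain ⟨⟨Z, _, hZ⟩, hg⟩ := hm
  simp only [goodSplit, Bool.and_eq_true, Bool.not_eq_true', List.isEmpty_eq_false_iff] at hg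
  exact ⟨⟨Z, hZ.symm⟩, hg.1.1, hg.1.2, hg.2.1, hg.2.2⟩

theorem sp_of_cand {adj : ℕ → ℕ → Bool} {n k t : ℕ} {B : List ℕ} (Z : List ℕ)
    (hZ : Z ∈ (B.map (fun v => [v])) ++ cands adj n k t)
    (hg : goodSplit adj n t (splitBy B Z) = true) : ∃ p, split adj n k t B = some p := by
  have hm : splitBy B Z ∈ ((((B.map (fun v => [v])) ++ cands adj n k t).map (splitBy B)).filter
      (goodSplit adj n t)) := by
    rw [List.mem_filter]
    exact ⟨List.mem_map_of_mem hZ, hg⟩
  unfold split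
  obtain ⟨a, l, hl⟩ := List.exists_cons_of_ne_nil (List.ne_nil_of_mem hm)
  rw [hl]
  exact ⟨a, rfl⟩

theorem sp_good {adj : ℕ → ℕ → Bool} {n t : ℕ} (hn : 0 < n) {B Z : List ℕ}
    (hB : ∀ v ∈ B, v < n) (h1 : ∃ v ∈ B, v ∈ Z) (h2 : ∃ v ∈ B, v ∉ Z)
    (r1 : rk (matz adj n) (fs n B ∩ fs n Z) (fs n B ∩ fs n Z)ᶜ ≤ t)
    (r2 : rk (matz adj n) (fs n B \ fs n Z) (fs n B \ fs n Z)ᶜ ≤ t) :
    goodSplit adj n t (splitBy B Z) = true := by
  have e1 : fs n (B.filter (fun v => decide (v ∈ Z))) = fs n B ∩ fs n Z := by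
    ext i; simp [fs]
  have e2 : fs n (B.filter (fun v => !decide (v ∈ Z))) = fs n B \ fs n Z := by
    ext i; simp [fs]
  simp only [goodSplit, splitBy, Bool.and_eq_true, Bool.not_eq_true', List.isEmpty_eq_false_iff]
  refine ⟨⟨?_, ?_⟩, ?_, ?_⟩
  · obtain ⟨v, hv, hvZ⟩ := h1
    exact List.ne_nil_of_mem (a := v) (by simp [hv, hvZ])
  · obtain ⟨v, hv, hvZ⟩ := h2
    exact List.ne_nil_of_mem (a := v) (by simp [hv, hvZ])
  · rw [rankLe_iff hn (fun v hv => hB v (List.mem_of_mem_filter hv)), e1]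
    exact r1
  · rw [rankLe_iff hn (fun v hv => hB v (List.mem_of_mem_filter hv)), e2]
    exact r2

theorem split_exists {adj : ℕ → ℕ → Bool} (hadj : Good adj) {n k : ℕ} (hk : 1 ≤ k)
    (hs : HasSplits k (gr adj n)) {B : List ℕ} (hB : Can n B) (h2 : 2 ≤ B.length)
    (hr : rankLe adj n (6 * k) B = true) : ∃ p, split adj n k (6 * k) B = some p := by
  have hBn : ∀ v ∈ B, v < n := fun v hv => List.mem_range.mp (hB.subset hv)
  have hnd : B.Nodup := hB.nodup List.nodup_range
  obtain ⟨a, B', rfl⟩ := List.exists_cons_of_ne_nil (List.ne_nil_of_length_pos (by omega : 0 < B.length))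
  obtain ⟨b, B'', rfl⟩ := List.exists_cons_of_ne_nil
    (List.ne_nil_of_length_pos (by rw [List.length_cons] at h2; omega : 0 < B'.length))
  set B : List ℕ := a :: b :: B'' with hBdef
  have han : a < n := hBn a (by simp [hBdef])
  have hbn : b < n := hBn b (by simp [hBdef])
  have hab : a ≠ b := by
    intro h
    rw [hBdef, List.nodup_cons] at hnd
    exact hnd.1 (by simp [h])
  have hn : 0 < n := by omega
  have hM : (matz adj n).transpose = matz adj n := by
    ext i j
    simp [matz, hadj.symm]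
  rw [rankLe_iff hn hBn] at hr
  rcases Nat.lt_or_ge (rk (matz adj n) (fs n B) (fs n B)ᶜ) (6 * k) with hlt | hge
  · -- split off one vertex
    have h1 := la_single hM (by omega : 1 ≤ 6 * k) hlt (⟨a, han⟩ : Fin n)
    have e : fs n [a] = {(⟨a, han⟩ : Fin n)} := by
      ext i; simp [fs, Fin.ext_iff]
    refine sp_of_cand [a] (by simp [hBdef]) (sp_good hn hBn ⟨a, by simp [hBdef], by simp⟩
      ⟨b, by simp [hBdef], by simpa using hab.symm⟩ ?_ ?_)
    · rw [e]; exact h1.1
    · rw [e]; exact h1.2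
  · have hBt : rk (matz adj n) (fs n B) (fs n B)ᶜ = 6 * k := le_antisymm hr hge
    obtain ⟨X, hXB, hXc, hXr⟩ := la_basis hBt
    obtain ⟨Z, τ, hτ, hZ1, hZ2⟩ := hs (X : Set (Fin n)) (2 * k) (by
      rw [Set.ncard_coe_finset, hXc]; omega)
    have : NeZero n := ⟨by omega⟩
    -- transport to natural numbers
    set ZN : Set ℕ := {v | ∃ h : v < n, (⟨v, h⟩ : Fin n) ∈ Z} with hZN
    set τN : ℕ → Fin k := fun v => τ (Fin.ofNat n v) with hτN
    have hof : ∀ {v : ℕ} (h : v < n), Fin.ofNat n v = ⟨v, h⟩ := by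
      intro v h
      ext
      simp [Fin.ofNat, Nat.mod_eq_of_lt h]
    have hτN' : ∀ u ∈ ZN, ∀ v ∈ ZN, τN u = τN v → ∀ w < n, w ∉ ZN → adj u w = adj v w := by
      rintro u ⟨hu, huZ⟩ v ⟨hv, hvZ⟩ huv w hw hwZ
      have hwZ' : (⟨w, hw⟩ : Fin n) ∉ Z := fun h => hwZ ⟨hw, h⟩
      simp only [hτN] at huv
      rw [hof hu, hof hv] at huv
      have h := hτ _ huZ _ hvZ huv _ hwZ'
      have hne1 : (⟨u, hu⟩ : Fin n) ≠ ⟨w, hw⟩ := fun h => hwZ' (h ▸ huZ)
      have hne2 : (⟨v, hv⟩ : Fin n) ≠ ⟨w, hw⟩ := fun h => hwZ' (h ▸ hvZ)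
      simp only [gr, hne1, hne2, ne_eq, not_false_eq_true, true_and] at h
      rw [hadj.symm w u, hadj.symm w v, or_self, or_self] at h
      exact Bool.eq_iff_iff.mpr h
    obtain ⟨A, hA, D, hD, hAD⟩ := clos_spec hn ZN (fun v hv => hv.1) τN hτN'
    -- the guessed part of the basis
    classical
    set S : Finset ℕ := (X.filter (fun i => i ∈ Z)).image (fun i : Fin n => (i : ℕ)) with hS
    have hXZ : ((X : Set (Fin n)) ∩ Z).ncard = (X.filter (fun i => i ∈ Z)).card := by
      rw [← Set.ncard_coe_finset]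
      congr 1
      ext i; simp
    have hXZ' : ((X : Set (Fin n)) \ Z).ncard = (X.filter (fun i => i ∉ Z)).card := by
      rw [← Set.ncard_coe_finset]
      congr 1
      ext i; simp
    have hSne : S.Nonempty := by
      rw [hS, Finset.image_nonempty, ← Finset.card_pos, ← hXZ]
      omega
    have hSn : ∀ x ∈ S, x ∈ List.range n := by
      intro x hx
      rw [hS, Finset.mem_image] at hx
      obtain ⟨i, _, rfl⟩ := hx
      exact List.mem_range.mpr i.2
    have hScard : S.card ≤ 6 * k := by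
      calc S.card ≤ (X.filter (fun i => i ∈ Z)).card := Finset.card_image_le
        _ ≤ X.card := Finset.card_filter_le _ _
        _ = 6 * k := hXc
    obtain ⟨X1, hX1, hX1S⟩ := exists_tuple hSne hSn hScard
    have hX1Z : ∀ x ∈ X1, x ∈ ZN := by
      intro x hx
      rw [hX1S, hS, Finset.mem_image] at hx
      obtain ⟨i, hi, rfl⟩ := hx
      exact ⟨i.2, (Finset.mem_filter.mp hi).2⟩
    obtain ⟨c1, c2, c3⟩ := hAD X1 hX1Z
    set Z' : List ℕ := clos adj n k A D X1 with hZ'
    have hrkZ : rk (matz adj n) (fs n Z') (fs n Z')ᶜ ≤ k := rk_le_of_comb hA c3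
    have key : ∀ i ∈ X, (i ∈ fs n Z' ↔ i ∈ Z) := by
      intro i hi
      simp only [fs, Finset.mem_filter, Finset.mem_univ, true_and]
      constructor
      · intro h
        obtain ⟨_, h⟩ := c2 _ h
        exact h
      · intro h
        apply c1
        rw [hX1S, hS, Finset.mem_image]
        exact ⟨i, Finset.mem_filter.mpr ⟨hi, h⟩, rfl⟩
    have hc1 : 2 * k ≤ (X ∩ fs n Z').card := by
      have : X ∩ fs n Z' = X.filter (fun i => i ∈ Z) := by
        ext i
        simp only [Finset.mem_inter, Finset.mem_filter]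
        exact and_congr_right (fun h => key i h)
      rw [this, ← hXZ]; exact hZ1
    have hc2 : 2 * k ≤ (X \ fs n Z').card := by
      have : X \ fs n Z' = X.filter (fun i => i ∉ Z) := by
        ext i
        simp only [Finset.mem_sdiff, Finset.mem_filter]
        exact and_congr_right (fun h => not_congr (key i h))
      rw [this, ← hXZ']; exact hZ2
    have hsp := la_split hM hBt hXB (by rw [hXr, hXc]) hrkZ hc1 hc2
    refine sp_of_cand Z' ?_ (sp_good hn hBn ?_ ?_ hsp.1 hsp.2)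
    · rw [List.mem_append]
      right
      simp only [cands, List.mem_flatMap, List.mem_map]
      exact ⟨A, hA, D, hD, X1, hX1, rfl⟩
    · obtain ⟨i, hi⟩ := Finset.card_pos.mp (by omega : 0 < (X ∩ fs n Z').card)
      rw [Finset.mem_inter] at hi
      have h1 := hXB hi.1
      simp only [fs, Finset.mem_filter, Finset.mem_univ, true_and] at h1 hi
      exact ⟨i, h1, hi.2⟩
    · obtain ⟨i, hi⟩ := Finset.card_pos.mp (by omega : 0 < (X \ fs n Z').card)
      rw [Finset.mem_sdiff] at hi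
      have h1 := hXB hi.1
      simp only [fs, Finset.mem_filter, Finset.mem_univ, true_and] at h1 hi
      exact ⟨i, h1, hi.2⟩

end Pool.Agent.H333R2.Col
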