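import Pool.Agent.H333R2.Col.Notions
import Pool.Agent.H333R2.Col.SP

/-!
# Module PT: parts
-/

namespace Pool.Agent.H333R2.Col

open Pool.Agent.H622R2


section PT

variable {adj : ℕ → ℕ → Bool} {n k : ℕ}

theorem pt_cube_ne (t : ℕ) : ∃ c, c ∈ cube t := by
  induction t with
  | zero => exact ⟨[], by simp [cube]⟩
  | succ t ih =>
    obtain ⟨c, hc⟩ := ih
    exact ⟨false :: c, by
      simp only [cube, List.mem_flatMap]
      exact ⟨c, hc, by simp⟩⟩

theorem pt_tuples_ne {V : List ℕ} {v : ℕ} (hv : v ∈ V) (t : ℕ) : ∃ R, R ∈ tuples V t := by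
  induction t with
  | zero => exact ⟨[], by simp [tuples]⟩
  | succ t ih =>
    obtain ⟨R, hR⟩ := ih
    exact ⟨v :: R, by
      simp only [tuples, List.mem_flatMap, List.mem_map]
      exact ⟨v, hv, R, hR, rfl⟩⟩

theorem pt_rank_root {t v : ℕ} (hv : v < n) : rankLe adj n t (List.range n) = true := by
  obtain ⟨R, hR⟩ := pt_tuples_ne (List.mem_range.mpr hv) t
  obtain ⟨c, hc⟩ := pt_cube_ne t
  unfold rankLe
  rw [List.any_eq_true]
  refine ⟨R, hR, ?_⟩
  rw [List.all_eq_true]
  intro u _
  unfold inSpan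
  rw [List.any_eq_true]
  refine ⟨c, hc, ?_⟩
  rw [List.all_eq_true]
  intro w hw
  rw [decide_eq_true hw, Bool.true_or]

/-- the part of level `m` containing `v` -/
def ptP (adj : ℕ → ℕ → Bool) (n k t m v : ℕ) : List ℕ :=
  (stepPart adj n k t v)^[m] (List.range n)

theorem pt_succ (t m v : ℕ) :
    ptP adj n k t (m + 1) v = stepPart adj n k t v (ptP adj n k t m v) :=
  Function.iterate_succ_apply' _ _ _

theorem pt_mem_split {B Z : List ℕ} {u : ℕ} :
    (u ∈ (splitBy B Z).1 ↔ u ∈ B ∧ u ∈ Z) ∧ (u ∈ (splitBy B Z).2 ↔ u ∈ B ∧ u ∉ Z) := by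
  unfold splitBy
  constructor
  · simp only [List.mem_filter, decide_eq_true_eq]
  · simp only [List.mem_filter, Bool.not_eq_true', decide_eq_false_iff_not]

theorem pt_can_split {B Z : List ℕ} (hB : Can n B) :
    Can n (splitBy B Z).1 ∧ Can n (splitBy B Z).2 :=
  ⟨List.filter_sublist.trans hB, List.filter_sublist.trans hB⟩

theorem pt_inv {t : ℕ} (m : ℕ) : ∀ v < n, Can n (ptP adj n k t m v) ∧ v ∈ ptP adj n k t m v ∧
      rankLe adj n t (ptP adj n k t m v) = true ∧
      ∀ u ∈ ptP adj n k t m v, ptP adj n k t m u = ptP adj n k t m v := by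
  induction m with
  | zero =>
    intro v hv
    refine ⟨List.Sublist.refl _, List.mem_range.mpr hv, pt_rank_root hv, fun u _ => rfl⟩
  | succ m ih =>
    intro v hv
    obtain ⟨h1, h2, h3, h4⟩ := ih v hv
    rcases hs : split adj n k t (ptP adj n k t m v) with _ | p
    · have hstep : ∀ u ∈ ptP adj n k t m v, ptP adj n k t (m + 1) u = ptP adj n k t m v := by
        intro u hu
        rw [pt_succ, h4 u hu, stepPart, hs]
        rfl
      rw [hstep v h2]
      exact ⟨h1, h2, h3, hstep⟩
    · obtain ⟨⟨Z, hZ⟩, hp1, hp2, hr1, hr2⟩ := split_spec hs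
      have hstep : ∀ u ∈ ptP adj n k t m v, ptP adj n k t (m + 1) u =
          if u ∈ p.1 then p.1 else p.2 := by
        intro u hu
        rw [pt_succ, h4 u hu, stepPart, hs]
        rfl
      by_cases hv1 : v ∈ p.1
      · rw [hstep v h2, if_pos hv1]
        refine ⟨?_, hv1, hr1, ?_⟩
        · rw [hZ]; exact (pt_can_split h1).1
        · intro u hu
          have hu' : u ∈ ptP adj n k t m v := by
            rw [hZ] at hu
            exact (pt_mem_split.1.mp hu).1
          rw [hstep u hu', if_pos hu]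
      · rw [hstep v h2, if_neg hv1]
        have hvZ : v ∉ Z := by
          intro hz
          apply hv1
          rw [hZ]
          exact pt_mem_split.1.mpr ⟨h2, hz⟩
        refine ⟨?_, ?_, hr2, ?_⟩
        · rw [hZ]; exact (pt_can_split h1).2
        · rw [hZ]; exact pt_mem_split.2.mpr ⟨h2, hvZ⟩
        · intro u hu
          rw [hZ] at hu
          obtain ⟨hu1, hu2⟩ := pt_mem_split.2.mp hu
          have hu3 : u ∉ p.1 := by
            rw [hZ]
            intro h
            exact hu2 (pt_mem_split.1.mp h).2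
          rw [hstep u hu1, if_neg hu3]

theorem pt_part {t : ℕ} (l : List ℕ) (v : ℕ) : part adj n k t l v = ptP adj n k t l.length v := rfl

/-- basic facts about the part containing `v` -/
theorem part_basic {t : ℕ} (l : List ℕ) {v : ℕ} (hv : v < n) :
    Can n (part adj n k t l v) ∧ v ∈ part adj n k t l v ∧
      rankLe adj n t (part adj n k t l v) = true ∧
      ∀ u ∈ part adj n k t l v, part adj n k t l u = part adj n k t l v :=
  pt_inv l.length v hv

theorem pt_lt {B : List ℕ} (hB : Can n B) {u : ℕ} (hu : u ∈ B) : u < n :=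
  List.mem_range.mp (hB.subset hu)

/-- the two parts of the next level -/
theorem part_split {t : ℕ} {l l' : List ℕ} (hl : l'.length = l.length + 1) {v : ℕ} (hv : v < n)
    {p : List ℕ × List ℕ} (h : split adj n k t (part adj n k t l v) = some p) :
    (∀ u ∈ p.1, u < n ∧ part adj n k t l' u = p.1) ∧
      (∀ u ∈ p.2, u < n ∧ part adj n k t l' u = p.2) ∧
    Can n p.1 ∧ Can n p.2 ∧ (∀ u, u ∈ part adj n k t l v ↔ u ∈ p.1 ∨ u ∈ p.2) ∧
    (∀ u ∈ p.1, u ∉ p.2) := by
  obtain ⟨h1, h2, h3, h4⟩ := part_basic (adj := adj) (k := k) (t := t) l hv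
  obtain ⟨⟨Z, hZ⟩, hp1, hp2, hr1, hr2⟩ := split_spec h
  have hstep : ∀ u ∈ part adj n k t l v, part adj n k t l' u = if u ∈ p.1 then p.1 else p.2 := by
    intro u hu
    rw [pt_part, hl, pt_succ, ← pt_part, h4 u hu, stepPart, h]
    rfl
  have hm1 : ∀ u, u ∈ p.1 ↔ u ∈ part adj n k t l v ∧ u ∈ Z := by
    intro u; rw [hZ]; exact pt_mem_split.1
  have hm2 : ∀ u, u ∈ p.2 ↔ u ∈ part adj n k t l v ∧ u ∉ Z := by
    intro u; rw [hZ]; exact pt_mem_split.2
  refine ⟨?_, ?_, ?_, ?_, ?_, ?_⟩
  · intro u hu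
    have hu1 := ((hm1 u).mp hu).1
    exact ⟨pt_lt h1 hu1, by rw [hstep u hu1, if_pos hu]⟩
  · intro u hu
    obtain ⟨hu1, hu2⟩ := (hm2 u).mp hu
    refine ⟨pt_lt h1 hu1, ?_⟩
    rw [hstep u hu1, if_neg]
    intro h'
    exact hu2 ((hm1 u).mp h').2
  · rw [hZ]; exact (pt_can_split h1).1
  · rw [hZ]; exact (pt_can_split h1).2
  · intro u
    rw [hm1, hm2]
    tauto
  · intro u hu hu'
    exact ((hm2 u).mp hu').2 ((hm1 u).mp hu).2

theorem pt_length (B Z : List ℕ) :
    (splitBy B Z).1.length + (splitBy B Z).2.length = B.length := by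
  unfold splitBy
  exact (List.length_eq_length_filter_add _).symm

theorem pt_len (hadj : Good adj) (hk : 1 ≤ k) (hs : HasSplits k (gr adj n)) (m : ℕ) :
    ∀ v < n, (ptP adj n k (6 * k) m v).length ≤ max 1 (n - m) := by
  induction m with
  | zero =>
    intro v _
    show (List.range n).length ≤ _
    rw [List.length_range]
    exact le_max_right _ _
  | succ m ih =>
    intro v hv
    obtain ⟨h1, h2, h3, h4⟩ := pt_inv (adj := adj) (k := k) (t := 6 * k) m v hv
    have hlen := ih v hv
    rw [pt_succ, stepPart]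
    rcases hsp : split adj n k (6 * k) (ptP adj n k (6 * k) m v) with _ | p
    · show (ptP adj n k (6 * k) m v).length ≤ _
      by_contra hcon
      have h2' : 2 ≤ (ptP adj n k (6 * k) m v).length := by
        have := le_max_left 1 (n - (m + 1))
        omega
      obtain ⟨p, hp⟩ := split_exists hadj hk hs h1 h2' h3
      rw [hsp] at hp
      exact absurd hp (by simp)
    · show (if v ∈ p.1 then p.1 else p.2).length ≤ _
      obtain ⟨⟨Z, hZ⟩, hp1, hp2, hr1, hr2⟩ := split_spec hsp
      have hl := pt_length (ptP adj n k (6 * k) m v) Z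
      rw [← hZ] at hl
      have hl1 : 1 ≤ p.1.length := List.length_pos_iff.mpr hp1
      have hl2 : 1 ≤ p.2.length := List.length_pos_iff.mpr hp2
      rcases le_total 1 (n - m) with hnm | hnm
      · rw [max_eq_right hnm] at hlen
        have h5 : n - (m + 1) ≤ max 1 (n - (m + 1)) := le_max_right _ _
        split_ifs <;> omega
      · rw [max_eq_left hnm] at hlen
        omega

/-- with the splitting property, parts that are not split are single vertices, and after `n`
levels all parts are single vertices -/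
theorem part_leaf (hadj : Good adj) (hk : 1 ≤ k) (hs : HasSplits k (gr adj n)) {l : List ℕ}
    {v : ℕ} (hv : v < n)
    (h : split adj n k (6 * k) (part adj n k (6 * k) l v) = none ∨ n ≤ l.length) :
    part adj n k (6 * k) l v = [v] := by
  obtain ⟨h1, h2, h3, h4⟩ := part_basic (adj := adj) (k := k) (t := 6 * k) l hv
  have hlen : (part adj n k (6 * k) l v).length ≤ 1 := by
    rcases h with h | h
    · by_contra hcon
      obtain ⟨p, hp⟩ := split_exists hadj hk hs h1 (by omega) h3
      rw [h] at hp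
      exact absurd hp (by simp)
    · have h5 := pt_len hadj hk hs l.length v hv
      have h6 : n - l.length = 0 := by omega
      rw [h6, max_eq_left (by omega)] at h5
      exact h5
  have hpos : 1 ≤ (part adj n k (6 * k) l v).length := List.length_pos_of_mem h2
  obtain ⟨a, ha⟩ := List.length_eq_one_iff.mp (le_antisymm hlen hpos)
  rw [ha] at h2 ⊢
  rw [List.mem_singleton] at h2
  rw [h2]

end PT

end Pool.Agent.H333R2.Col
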