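import Pool.Agent.H333R2.Col.Main
import Pool.Agent.H221R2.CwBasic
import Pool.Agent.Results.MP_849b2e_co.Classification

/-!
# Pairs of forbidden induced subgraphs with bounded (linear) clique-width
-/

namespace Pool.Agent.H333R2.Col

open Pool.Agent.Helper856.PairStmt Pool.Agent.Helper856.Lcw Pool.Agent.Helper856.Cw

/-- The graph `2 P_1 + P_2`: isolated vertices `0`, `1` and the edge `23`. -/
def F2P1_P2 := Pool.Agent.Helper856.Lcw.gr 4 [(2, 3)]

theorem diamond_compl : F2P1_P2 = Diamondᶜ := by
  ext u v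
  simp only [F2P1_P2, Diamond, Pool.Agent.Helper856.Lcw.gr, SimpleGraph.compl_adj, SimpleGraph.fromRel_adj]
  revert u v
  decide

/-- COLOURING is polynomial on the `(A, B)`-free graphs if their linear clique-width is
bounded. -/
theorem colouringInPOn_of_bounded {W₁ W₂ : Type} {A : SimpleGraph W₁} {B : SimpleGraph W₂}
    (h : Bounded A B) :
    ColouringInPOn (fun _ G => ¬ A.IsIndContained G ∧ ¬ B.IsIndContained G) := by
  obtain ⟨c, hc⟩ := h
  exact colouringInPOn_of_cliqueWidth (c := c) fun V _ G hG =>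
    (Pool.Agent.H221R2.CwBasic.cliqueWidth_le G).trans (hc V G hG.1 hG.2)

end Pool.Agent.H333R2.Col
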